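import Mathlib

set_option autoImplicit false

namespace H45SR

open Finset

/-- The number of representations of `s` as a difference of two elements of `A`. -/
def rep (A : Finset ℚ) (s : ℚ) : ℕ := ((A ×ˢ A).filter (fun p : ℚ × ℚ => p.1 - p.2 = s)).card

/-- The difference set of `A`. -/
def dif (A : Finset ℚ) : Finset ℚ := (A ×ˢ A).image (fun p : ℚ × ℚ => p.1 - p.2)

/-- The additive energy of `A`. -/
def en (A : Finset ℚ) : ℕ :=
  ((A ×ˢ A ×ˢ A ×ˢ A).filter
    (fun x : ℚ × ℚ × ℚ × ℚ => x.1 + x.2.1 = x.2.2.1 + x.2.2.2)).card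

lemma sum_rep (A : Finset ℚ) : ∑ s ∈ dif A, rep A s = A.card ^ 2 := by
  have h := Finset.card_eq_sum_card_fiberwise (s := A ×ˢ A) (t := dif A)
    (f := fun p : ℚ × ℚ => p.1 - p.2)
    (fun p hp => Finset.mem_coe.mpr (Finset.mem_image_of_mem _ (Finset.mem_coe.mp hp)))
  rw [Finset.card_product] at h
  unfold rep
  rw [← h, pow_two]

lemma en_eq (A : Finset ℚ) : en A = ∑ s ∈ dif A, rep A s ^ 2 := by
  unfold en
  rw [Finset.card_eq_sum_card_fiberwise (t := dif A)
    (f := fun x : ℚ × ℚ × ℚ × ℚ => x.1 - x.2.2.1)]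
  · refine Finset.sum_congr rfl (fun s _ => ?_)
    unfold rep
    rw [pow_two, ← Finset.card_product]
    refine Finset.card_bij (fun x _ => ((x.1, x.2.2.1), (x.2.2.2, x.2.1))) ?_ ?_ ?_
    · intro x hx
      simp only [Finset.mem_filter, Finset.mem_product] at hx ⊢
      refine ⟨⟨⟨hx.1.1.1, hx.1.1.2.2.1⟩, hx.2⟩, ⟨⟨hx.1.1.2.2.2, hx.1.1.2.1⟩, ?_⟩⟩
      have h1 := hx.1.2
      have h2 := hx.2
      linarith
    · intro x hx y hy hxy
      simp only [Prod.mk.injEq] at hxy
      ext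
      · exact hxy.1.1
      · exact hxy.2.2
      · exact hxy.1.2
      · exact hxy.2.1
    · intro p hp
      simp only [Finset.mem_filter, Finset.mem_product] at hp
      refine ⟨(p.1.1, p.2.2, p.1.2, p.2.1), ?_, rfl⟩
      simp only [Finset.mem_filter, Finset.mem_product]
      refine ⟨⟨⟨hp.1.1.1, hp.2.1.2, hp.1.1.2, hp.2.1.1⟩, ?_⟩, hp.1.2⟩
      have h1 := hp.1.2
      have h2 := hp.2.2
      linarith
  · intro x hx
    have hx' := (Finset.mem_filter.mp (Finset.mem_coe.mp hx)).1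
    simp only [Finset.mem_product] at hx'
    exact Finset.mem_coe.mpr (Finset.mem_image.mpr
      ⟨(x.1, x.2.2.1), Finset.mem_product.mpr ⟨hx'.1, hx'.2.2.1⟩, rfl⟩)

lemma rep_eq (A : Finset ℚ) (s : ℚ) : rep A s = (A.filter (fun b => b + s ∈ A)).card := by
  unfold rep
  refine Finset.card_bij (fun p _ => p.2) ?_ ?_ ?_
  · intro p hp
    simp only [Finset.mem_filter, Finset.mem_product] at hp ⊢
    refine ⟨hp.1.2, ?_⟩
    have : p.2 + s = p.1 := by linarith [hp.2]
    rw [this]; exact hp.1.1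
  · intro p hp p' hp' h
    simp only [Finset.mem_filter, Finset.mem_product] at hp hp'
    ext
    · linarith [hp.2, hp'.2]
    · exact h
  · intro b hb
    simp only [Finset.mem_filter] at hb
    refine ⟨(b + s, b), ?_, rfl⟩
    simp only [Finset.mem_filter, Finset.mem_product]
    exact ⟨⟨hb.2, hb.1⟩, by ring⟩

lemma rep_le (A : Finset ℚ) (s : ℚ) : rep A s ≤ A.card := by
  rw [rep_eq]; exact Finset.card_filter_le _ _

lemma en_le_cube (A : Finset ℚ) : en A ≤ A.card ^ 3 := by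
  rw [en_eq]
  calc ∑ s ∈ dif A, rep A s ^ 2 ≤ ∑ s ∈ dif A, A.card * rep A s := by
        refine Finset.sum_le_sum (fun s _ => ?_)
        rw [pow_two]
        exact Nat.mul_le_mul_right _ (rep_le A s)
    _ = A.card ^ 3 := by rw [← Finset.mul_sum, sum_rep]; ring

end H45SR
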