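import Pool.Agent.H45.SQ.Fin
import Pool.Agent.H45.SR.Cn

/-! Header (helper45): scaling by a nonzero rational `c`; port of `tup_image`, `ten_image`,
`mix_image`, `descend`, `descendB` (`Pool/Agent/H45/SQ/Fin.lean`) and `third_card`, `third_image`,
`dif_image` (`Pool/Agent/H45/SQ/Tr.lean`) from `(z : ℤ) ↦ (z : ℚ) * c` to `(z : ℚ) ↦ z * c`.
`H45SQ.col_transfer` is generic. Easier than the originals (no integrality). -/

set_option autoImplicit false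

namespace H45SR

open Finset H45SQ

lemma tup_image (k : ℕ) (A : Finset ℚ) (ι : ℚ → ℚ) :
    tup k (A.image ι) = (tup k A).image (fun x i => ι (x i)) := by
  ext y
  rw [mem_tup, Finset.mem_image]
  constructor
  · intro h
    have h' : ∀ i, ∃ a ∈ A, ι a = y i := fun i => Finset.mem_image.mp (h i)
    choose a ha hy using h'
    exact ⟨a, (mem_tup _ _ _).mpr ha, funext hy⟩
  · rintro ⟨x, hx, rfl⟩ i
    rw [mem_tup] at hx
    exact Finset.mem_image_of_mem _ (hx i)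

lemma ten_image (k : ℕ) (A : Finset ℚ) (c : ℚ) (hc : c ≠ 0) :
    ten k (A.image (fun z : ℚ => z * c)) = ten k A := by
  unfold ten
  rw [tup_image]
  apply col_transfer
  · intro x y h
    funext i
    exact mul_right_cancel₀ hc (congrFun h i)
  · intro x y
    simp only
    rw [← Finset.sum_mul, ← Finset.sum_mul]
    constructor
    · intro h
      exact mul_right_cancel₀ hc h
    · intro h
      rw [h]

lemma mix_image (A B : Finset ℚ) (c : ℚ) (hc : c ≠ 0) :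
    col ((A.image (fun z : ℚ => z * c)) ×ˢ (B.image (fun z : ℚ => z * c)))
      (fun z : ℚ × ℚ => z.1 + z.2) = col (A ×ˢ B) (fun z : ℚ × ℚ => z.1 + z.2) := by
  have e : (A.image (fun z : ℚ => z * c)) ×ˢ (B.image (fun z : ℚ => z * c))
      = (A ×ˢ B).image (fun z : ℚ × ℚ => (z.1 * c, z.2 * c)) := by
    ext ⟨u, v⟩
    simp only [Finset.mem_product, Finset.mem_image, Prod.mk.injEq, Prod.exists]
    constructor
    · rintro ⟨⟨a, ha, e1⟩, ⟨b, hb, e2⟩⟩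
      exact ⟨a, b, ⟨ha, hb⟩, e1, e2⟩
    · rintro ⟨a, b, ⟨ha, hb⟩, e1, e2⟩
      exact ⟨⟨a, ha, e1⟩, ⟨b, hb, e2⟩⟩
  rw [e]
  apply col_transfer
  · intro x y h
    simp only [Prod.mk.injEq] at h
    exact Prod.ext (mul_right_cancel₀ hc h.1) (mul_right_cancel₀ hc h.2)
  · intro x y
    simp only
    rw [← add_mul, ← add_mul]
    constructor
    · intro h
      exact mul_right_cancel₀ hc h
    · intro h
      rw [h]

lemma descend (H Q : ℕ) (r : ℚ) (A : Finset ℚ) (hr : r ≠ 0)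
    (hA : ∀ a ∈ A, ∃ x : ℚ, |x.num| ≤ (H : ℤ) ∧ x.den ≤ Q ∧ a = (r * x) ^ 2) :
    ∃ A' : Finset ℚ, (∀ a ∈ A', ∃ x : ℚ, |x.num| ≤ (H : ℤ) ∧ x.den ≤ Q ∧ a = x ^ 2) ∧
      A'.image (fun z : ℚ => z * r ^ 2) = A ∧ A'.card = A.card := by
  classical
  have hr0 : r ^ 2 ≠ 0 := pow_ne_zero 2 hr
  refine ⟨A.image (fun a => a / r ^ 2), ?_, ?_, ?_⟩
  · intro z hz
    obtain ⟨a, ha, rfl⟩ := Finset.mem_image.mp hz
    obtain ⟨x, hx, hx', e⟩ := hA a ha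
    refine ⟨x, hx, hx', ?_⟩
    rw [e, mul_pow, mul_div_cancel_left₀ _ hr0]
  · rw [Finset.image_image]
    ext a
    rw [Finset.mem_image]
    constructor
    · rintro ⟨b, hb, e⟩
      have e' : b / r ^ 2 * r ^ 2 = a := e
      rw [div_mul_cancel₀ _ hr0] at e'
      rw [← e']; exact hb
    · intro ha
      exact ⟨a, ha, div_mul_cancel₀ _ hr0⟩
  · apply Finset.card_image_of_injective
    intro a b hab
    exact (div_left_inj' hr0).1 hab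

lemma descendB (H Q : ℕ) (r : ℚ) (B : Finset ℚ) (hr : r ≠ 0)
    (hB : ∀ b ∈ B, ∃ z : ℚ, |z.num| ≤ (H : ℤ) ^ 2 ∧ z.den ≤ Q ^ 2 ∧ b = r ^ 2 * z) :
    ∃ B' : Finset ℚ, (∀ b ∈ B', |b.num| ≤ (H : ℤ) ^ 2 ∧ b.den ≤ Q ^ 2) ∧
      B'.image (fun z : ℚ => z * r ^ 2) = B ∧ B'.card = B.card := by
  classical
  have hr0 : r ^ 2 ≠ 0 := pow_ne_zero 2 hr
  refine ⟨B.image (fun a => a / r ^ 2), ?_, ?_, ?_⟩
  · intro z hz
    obtain ⟨a, ha, rfl⟩ := Finset.mem_image.mp hz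
    obtain ⟨x, hx, hx', e⟩ := hB a ha
    have e1 : a / r ^ 2 = x := by
      rw [e, mul_div_cancel_left₀ _ hr0]
    rw [e1]
    exact ⟨hx, hx'⟩
  · rw [Finset.image_image]
    ext a
    rw [Finset.mem_image]
    constructor
    · rintro ⟨b, hb, e⟩
      have e' : b / r ^ 2 * r ^ 2 = a := e
      rw [div_mul_cancel₀ _ hr0] at e'
      rw [← e']; exact hb
    · intro ha
      exact ⟨a, ha, div_mul_cancel₀ _ hr0⟩
  · apply Finset.card_image_of_injective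
    intro a b hab
    exact (div_left_inj' hr0).1 hab

lemma third_card (A : Finset ℚ) :
    (((A ×ˢ A) ×ˢ (A ×ˢ A) ×ˢ (A ×ˢ A)).filter
      (fun p : (ℚ × ℚ) × (ℚ × ℚ) × (ℚ × ℚ) =>
        p.1.1 - p.1.2 = p.2.1.1 - p.2.1.2 ∧ p.2.1.1 - p.2.1.2 = p.2.2.1 - p.2.2.2)).card ≤
      ∑ s ∈ dif A, rep A s ^ 3 := by
  rw [Finset.card_eq_sum_card_fiberwise (t := dif A)
    (f := fun p : (ℚ × ℚ) × (ℚ × ℚ) × (ℚ × ℚ) => p.1.1 - p.1.2)]
  · refine Finset.sum_le_sum fun s _ => ?_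
    have e : rep A s ^ 3 =
      (((A ×ˢ A).filter (fun p : ℚ × ℚ => p.1 - p.2 = s)) ×ˢ
        ((A ×ˢ A).filter (fun p : ℚ × ℚ => p.1 - p.2 = s)) ×ˢ
        ((A ×ˢ A).filter (fun p : ℚ × ℚ => p.1 - p.2 = s))).card := by
      rw [Finset.card_product, Finset.card_product]
      unfold rep
      ring
    rw [e]
    refine Finset.card_le_card fun p hp => ?_
    obtain ⟨h1, h2⟩ := Finset.mem_filter.mp hp
    obtain ⟨h3, h4, h5⟩ := Finset.mem_filter.mp h1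
    obtain ⟨h6, h7⟩ := Finset.mem_product.mp h3
    obtain ⟨h8, h9⟩ := Finset.mem_product.mp h7
    have h2' : p.1.1 - p.1.2 = s := h2
    refine Finset.mem_product.mpr ⟨Finset.mem_filter.mpr ⟨h6, h2'⟩, Finset.mem_product.mpr
      ⟨Finset.mem_filter.mpr ⟨h8, ?_⟩, Finset.mem_filter.mpr ⟨h9, ?_⟩⟩⟩
    · rw [← h4]; exact h2'
    · rw [← h5, ← h4]; exact h2'
  · intro p hp
    obtain ⟨h3, _⟩ := Finset.mem_filter.mp (Finset.mem_coe.mp hp)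
    exact Finset.mem_coe.mpr (Finset.mem_image.mpr ⟨p.1, (Finset.mem_product.mp h3).1, rfl⟩)

lemma third_image (A : Finset ℚ) (c : ℚ) (hc : c ≠ 0) (B : Finset ℚ)
    (hB : A.image (fun z : ℚ => z * c) = B) :
    (((B ×ˢ B) ×ˢ (B ×ˢ B) ×ˢ (B ×ˢ B)).filter
      (fun p : (ℚ × ℚ) × (ℚ × ℚ) × (ℚ × ℚ) =>
        p.1.1 - p.1.2 = p.2.1.1 - p.2.1.2 ∧ p.2.1.1 - p.2.1.2 = p.2.2.1 - p.2.2.2)).card ≤
      ∑ s ∈ dif A, rep A s ^ 3 := by
  refine le_trans ?_ (third_card A)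
  have hsub : (((B ×ˢ B) ×ˢ (B ×ˢ B) ×ˢ (B ×ˢ B)).filter
      (fun p : (ℚ × ℚ) × (ℚ × ℚ) × (ℚ × ℚ) =>
        p.1.1 - p.1.2 = p.2.1.1 - p.2.1.2 ∧ p.2.1.1 - p.2.1.2 = p.2.2.1 - p.2.2.2)) ⊆
      (((A ×ˢ A) ×ˢ (A ×ˢ A) ×ˢ (A ×ˢ A)).filter
      (fun p : (ℚ × ℚ) × (ℚ × ℚ) × (ℚ × ℚ) =>
        p.1.1 - p.1.2 = p.2.1.1 - p.2.1.2 ∧ p.2.1.1 - p.2.1.2 = p.2.2.1 - p.2.2.2)).image
      (fun p => ((p.1.1 * c, p.1.2 * c), ((p.2.1.1 * c, p.2.1.2 * c),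
        (p.2.2.1 * c, p.2.2.2 * c)))) := by
    intro p hp
    rw [Finset.mem_filter] at hp
    obtain ⟨h1, h2, h3⟩ := hp
    simp only [Finset.mem_product, ← hB, Finset.mem_image] at h1
    obtain ⟨⟨⟨a1, ha1, e1⟩, ⟨a2, ha2, e2⟩⟩, ⟨⟨a3, ha3, e3⟩, ⟨a4, ha4, e4⟩⟩,
      ⟨⟨a5, ha5, e5⟩, ⟨a6, ha6, e6⟩⟩⟩ := h1
    refine Finset.mem_image.mpr ⟨((a1, a2), ((a3, a4), (a5, a6))), ?_, ?_⟩
    · refine Finset.mem_filter.mpr ⟨?_, ?_, ?_⟩
      · simp only [Finset.mem_product]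
        exact ⟨⟨ha1, ha2⟩, ⟨ha3, ha4⟩, ⟨ha5, ha6⟩⟩
      · rw [← e1, ← e2, ← e3, ← e4, ← sub_mul, ← sub_mul] at h2
        exact mul_right_cancel₀ hc h2
      · rw [← e3, ← e4, ← e5, ← e6, ← sub_mul, ← sub_mul] at h3
        exact mul_right_cancel₀ hc h3
    · simp only [e1, e2, e3, e4, e5, e6]
  exact (Finset.card_le_card hsub).trans Finset.card_image_le

lemma dif_image (A : Finset ℚ) (c : ℚ) (hc : c ≠ 0) (B : Finset ℚ)
    (hB : A.image (fun z : ℚ => z * c) = B) :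
    (dif A).card ≤ ((B ×ˢ B).image (fun p : ℚ × ℚ => p.1 - p.2)).card := by
  refine Finset.card_le_card_of_injOn (fun s : ℚ => s * c) ?_ ?_
  · intro s hs
    obtain ⟨p, hp, h⟩ := Finset.mem_image.mp (Finset.mem_coe.mp hs)
    have h1 := Finset.mem_product.mp hp
    refine Finset.mem_coe.mpr (Finset.mem_image.mpr ⟨(p.1 * c, p.2 * c), ?_, ?_⟩)
    · rw [← hB]
      exact Finset.mem_product.mpr ⟨Finset.mem_image.mpr ⟨p.1, h1.1, rfl⟩,
        Finset.mem_image.mpr ⟨p.2, h1.2, rfl⟩⟩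
    · have h' : p.1 - p.2 = s := h
      show p.1 * c - p.2 * c = s * c
      rw [← h']
      ring
  · intro s _ t _ h
    exact mul_right_cancel₀ hc h

end H45SR
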