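import Pool.Agent.H45.SR.Sv
import Pool.Agent.H45.SR.Img

set_option autoImplicit false

namespace H45SR

open Finset H45SQ

lemma log_two_HQ (H Q : ℕ) (hH : 2 ≤ H) (hQ : 1 ≤ Q) :
    Real.log (2 * ((H : ℝ) * Q)) ≤ 2 * Real.log ((H : ℝ) * Q) ∧ 0 ≤ Real.log (2 * ((H : ℝ) * Q)) ∧
      0 ≤ Real.log ((H : ℝ) * Q) := by
  have hHr : (2 : ℝ) ≤ H := by exact_mod_cast hH
  have hQr : (1 : ℝ) ≤ Q := by exact_mod_cast hQ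
  have hHQ : (2 : ℝ) ≤ (H : ℝ) * Q := by nlinarith
  refine ⟨?_, Real.log_nonneg (by linarith), Real.log_nonneg (by linarith)⟩
  have : Real.log (2 * ((H : ℝ) * Q)) ≤ Real.log (((H : ℝ) * Q) ^ 2) :=
    Real.log_le_log (by linarith) (by nlinarith)
  rw [Real.log_pow] at this
  push_cast at this
  exact this

/-- Third moment, with logarithms. -/
theorem third_log (H Q : ℕ) (hH : 2 ≤ H) (hQ : 1 ≤ Q) (A : Finset ℚ)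
    (hA : ∀ a ∈ A, ∃ x : ℚ, |x.num| ≤ (H : ℤ) ∧ x.den ≤ Q ∧ a = x ^ 2) :
    ∑ s ∈ dif A, (rep A s : ℝ) ^ 3 ≤
      (40000 * Real.log ((H : ℝ) * Q)) ^ 3 * (A.card : ℝ) ^ 3 := by
  have h1 := third H Q hH hQ A hA
  have h2 := LL_le H Q hH hQ A hA
  have h3 := vv_le H Q hH hQ
  have hv0 : 0 ≤ vv H Q := by have := vv_one H Q hH hQ; linarith
  obtain ⟨h4, h5, h6⟩ := log_two_HQ H Q hH hQ
  have hL0 : (0 : ℝ) ≤ (LL A : ℝ) := Nat.cast_nonneg _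
  have hn0 : (0 : ℝ) ≤ (A.card : ℝ) := Nat.cast_nonneg _
  obtain ⟨l, hl⟩ : ∃ l : ℝ, l = Real.log ((H : ℝ) * Q) := ⟨_, rfl⟩
  rw [← hl] at h4 h6 ⊢
  have c1 : (LL A : ℝ) ≤ 6 * l := by linarith
  have c2 : vv H Q ≤ 36000000000 * l ^ 2 := by
    refine h3.trans ?_
    have : Real.log (2 * ((H : ℝ) * Q)) ^ 2 ≤ (2 * l) ^ 2 := pow_le_pow_left₀ h5 h4 2
    nlinarith
  calc ∑ s ∈ dif A, (rep A s : ℝ) ^ 3 ≤ 8 * (LL A : ℝ) * vv H Q * (A.card : ℝ) ^ 3 := h1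
    _ ≤ 8 * (6 * l) * (36000000000 * l ^ 2) * (A.card : ℝ) ^ 3 := by gcongr
    _ = 1728000000000 * (l ^ 3 * (A.card : ℝ) ^ 3) := by ring
    _ ≤ 40000 ^ 3 * (l ^ 3 * (A.card : ℝ) ^ 3) := by
        apply mul_le_mul_of_nonneg_right _ (by positivity)
        norm_num
    _ = (40000 * l) ^ 3 * (A.card : ℝ) ^ 3 := by ring

/-- Difference set, with logarithms. -/
theorem dif_log (H Q : ℕ) (hH : 2 ≤ H) (hQ : 1 ≤ Q) (A : Finset ℚ)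
    (hA : ∀ a ∈ A, ∃ x : ℚ, |x.num| ≤ (H : ℤ) ∧ x.den ≤ Q ∧ a = x ^ 2) :
    (A.card : ℝ) ^ ((8 : ℝ) / 5) ≤
      (40000 * Real.log ((H : ℝ) * Q)) ^ 2 * ((dif A).card : ℝ) := by
  have h1 := dif_bound H Q hH hQ A hA
  have h2 := LL_le H Q hH hQ A hA
  have h3 := vv_le H Q hH hQ
  have hv0 : 0 ≤ vv H Q := by have := vv_one H Q hH hQ; linarith
  obtain ⟨h4, h5, h6⟩ := log_two_HQ H Q hH hQ
  have hL0 : (0 : ℝ) ≤ (LL A : ℝ) := Nat.cast_nonneg _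
  obtain ⟨n, hn⟩ : ∃ n : ℝ, n = (A.card : ℝ) := ⟨_, rfl⟩
  obtain ⟨X, hX⟩ : ∃ X : ℝ, X = ((dif A).card : ℝ) := ⟨_, rfl⟩
  obtain ⟨l, hl⟩ : ∃ l : ℝ, l = Real.log ((H : ℝ) * Q) := ⟨_, rfl⟩
  have hn0 : 0 ≤ n := by rw [hn]; exact Nat.cast_nonneg _
  have hX0 : 0 ≤ X := by rw [hX]; exact Nat.cast_nonneg _
  rw [← hn, ← hX] at h1
  rw [← hl] at h4 h6
  rw [← hn, ← hX, ← hl]
  refine le_of_pow_le_pow_left₀ (n := 5) (by norm_num) (by positivity) ?_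
  have b1 : (n ^ ((8 : ℝ) / 5)) ^ 5 = n ^ 8 := by
    rw [← Real.rpow_natCast (n ^ ((8 : ℝ) / 5)) 5, ← Real.rpow_mul hn0, ← Real.rpow_natCast n 8]
    norm_num
  rw [b1]
  have c1 : (LL A : ℝ) ≤ 6 * l := by linarith
  have c2 : vv H Q ≤ 36000000000 * l ^ 2 := by
    refine h3.trans ?_
    have : Real.log (2 * ((H : ℝ) * Q)) ^ 2 ≤ (2 * l) ^ 2 := pow_le_pow_left₀ h5 h4 2
    nlinarith
  calc n ^ 8 ≤ 128 * (LL A : ℝ) ^ 2 * vv H Q ^ 4 * X ^ 5 := h1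
    _ ≤ 128 * (6 * l) ^ 2 * (36000000000 * l ^ 2) ^ 4 * X ^ 5 := by gcongr
    _ = (128 * 6 ^ 2 * 36000000000 ^ 4) * (l ^ 10 * X ^ 5) := by ring
    _ ≤ 40000 ^ 10 * (l ^ 10 * X ^ 5) := by
        apply mul_le_mul_of_nonneg_right _ (by positivity)
        norm_num
    _ = ((40000 * l) ^ 2 * X) ^ 5 := by ring

end H45SR
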