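import Mathlib

set_option autoImplicit false

namespace H45SR

/-- The numerator of `x` is at most `N` in absolute value, the denominator at most `D`. -/
def hq (N D : ℝ) (x : ℚ) : Prop := ((|x.num| : ℤ) : ℝ) ≤ N ∧ ((x.den : ℕ) : ℝ) ≤ D

lemma hq_mono {N D N' D' : ℝ} {x : ℚ} (h : hq N D x) (h1 : N ≤ N') (h2 : D ≤ D') : hq N' D' x :=
  ⟨h.1.trans h1, h.2.trans h2⟩

lemma hq_nonneg {N D : ℝ} {x : ℚ} (h : hq N D x) : 0 ≤ N :=
  le_trans (by exact_mod_cast abs_nonneg x.num) h.1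

lemma hq_pos {N D : ℝ} {x : ℚ} (h : hq N D x) : 1 ≤ D :=
  le_trans (by exact_mod_cast x.den_pos) h.2

lemma hq_zero : hq 0 1 0 := by
  unfold hq
  simp

lemma hq_neg {N D : ℝ} {x : ℚ} (h : hq N D x) : hq N D (-x) := by
  unfold hq at *
  simpa using h

lemma abs_num_add (x y : ℚ) :
    ((|(x + y).num| : ℤ) : ℝ) ≤ ((|x.num| : ℤ) : ℝ) * (y.den : ℝ) + ((|y.num| : ℤ) : ℝ) * (x.den : ℝ) := by
  have h1 := Rat.add_num_den' x y
  have hd : (x + y).den ≤ x.den * y.den :=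
    Nat.le_of_dvd (Nat.mul_pos x.den_pos y.den_pos) (Rat.add_den_dvd x y)
  have hx : (0 : ℤ) < x.den := by exact_mod_cast x.den_pos
  have hy : (0 : ℤ) < y.den := by exact_mod_cast y.den_pos
  have hxy : (0 : ℤ) < (x + y).den := by exact_mod_cast (x + y).den_pos
  have hd' : ((x + y).den : ℤ) ≤ x.den * y.den := by exact_mod_cast hd
  have h2 : |(x + y).num| * ((x.den : ℤ) * y.den)
      = |x.num * y.den + y.num * x.den| * ((x + y).den : ℤ) := by
    have e1 : |(x + y).num| * ((x.den : ℤ) * y.den) = |(x + y).num * x.den * y.den| := by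
      rw [abs_mul, abs_mul, abs_of_pos hx, abs_of_pos hy]; ring
    have e2 : |x.num * y.den + y.num * x.den| * ((x + y).den : ℤ)
        = |(x.num * y.den + y.num * x.den) * ((x + y).den : ℤ)| := by
      rw [abs_mul, abs_of_pos hxy]
    rw [e1, e2, h1]
  have h3 : |(x + y).num| ≤ |x.num * y.den + y.num * x.den| := by
    have h4 : |x.num * y.den + y.num * x.den| * ((x + y).den : ℤ)
        ≤ |x.num * y.den + y.num * x.den| * ((x.den : ℤ) * y.den) :=
      mul_le_mul_of_nonneg_left hd' (abs_nonneg _)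
    rw [← h2] at h4
    exact le_of_mul_le_mul_right h4 (mul_pos hx hy)
  have h5 : |x.num * y.den + y.num * x.den| ≤ |x.num| * y.den + |y.num| * x.den := by
    refine (abs_add_le _ _).trans ?_
    rw [abs_mul, abs_mul, abs_of_pos hx, abs_of_pos hy]
  have h6 := h3.trans h5
  have h7 : ((|(x + y).num| : ℤ) : ℝ) ≤ ((|x.num| * y.den + |y.num| * x.den : ℤ) : ℝ) := by
    exact_mod_cast h6
  refine h7.trans (le_of_eq ?_)
  push_cast
  ring

lemma hq_add {N D N' D' : ℝ} {x y : ℚ} (hx : hq N D x) (hy : hq N' D' y) :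
    hq (N * D' + N' * D) (D * D') (x + y) := by
  have a1 := hq_nonneg hx
  have a2 := hq_nonneg hy
  have a3 := hq_pos hx
  have a4 := hq_pos hy
  constructor
  · refine (abs_num_add x y).trans ?_
    have h1 : ((|x.num| : ℤ) : ℝ) * (y.den : ℝ) ≤ N * D' :=
      mul_le_mul hx.1 hy.2 (Nat.cast_nonneg _) a1
    have h2 : ((|y.num| : ℤ) : ℝ) * (x.den : ℝ) ≤ N' * D :=
      mul_le_mul hy.1 hx.2 (Nat.cast_nonneg _) a2
    linarith
  · have hd : (x + y).den ≤ x.den * y.den :=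
      Nat.le_of_dvd (Nat.mul_pos x.den_pos y.den_pos) (Rat.add_den_dvd x y)
    have hd' : ((x + y).den : ℝ) ≤ x.den * y.den := by exact_mod_cast hd
    exact hd'.trans (mul_le_mul hx.2 hy.2 (Nat.cast_nonneg _) (by linarith))

lemma hq_sub {N D N' D' : ℝ} {x y : ℚ} (hx : hq N D x) (hy : hq N' D' y) :
    hq (N * D' + N' * D) (D * D') (x - y) := by
  rw [sub_eq_add_neg]
  exact hq_add hx (hq_neg hy)

/-- Squares of rationals of height at most `H`. -/
lemma hq_sq {H : ℕ} {x : ℚ} (h1 : |x.num| ≤ (H : ℤ)) (h2 : x.den ≤ H) :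
    hq ((H : ℝ) ^ 2) ((H : ℝ) ^ 2) (x ^ 2) := by
  have e : x ^ 2 = x * x := by ring
  rw [e]
  unfold hq
  rw [Rat.mul_self_num, Rat.mul_self_den, abs_mul]
  have h1' : ((|x.num| : ℤ) : ℝ) ≤ (H : ℝ) := by exact_mod_cast h1
  have h2' : ((x.den : ℕ) : ℝ) ≤ (H : ℝ) := by exact_mod_cast h2
  have h3 : (0 : ℝ) ≤ ((|x.num| : ℤ) : ℝ) := by exact_mod_cast abs_nonneg x.num
  constructor
  · push_cast at *
    nlinarith
  · push_cast
    have : (0 : ℝ) ≤ (x.den : ℝ) := Nat.cast_nonneg _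
    nlinarith

end H45SR
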