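import Pool.Agent.H91.SQ.Char

set_option autoImplicit false

namespace H45SR

open Finset H91SQ

section general

variable {X Y : Type*}

/-- Push forward of the weight `g` to residues modulo `q` and `q'`. -/
noncomputable def pushW (q q' : ℕ) (S : Finset X) (α : X → ZMod q) (α' : X → ZMod q') (g : X → ℝ)
    (y : ZMod q) (y' : ZMod q') : ℝ :=
  ∑ s ∈ S, if α s = y ∧ α' s = y' then g s else 0

lemma push_sum (q q' : ℕ) [Fact q.Prime] [Fact q'.Prime] (S : Finset X) (α : X → ZMod q)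
    (α' : X → ZMod q') (g : X → ℝ) (h : ZMod q → ZMod q' → ℝ) :
    ∑ y : ZMod q, ∑ y' : ZMod q', h y y' * pushW q q' S α α' g y y'
      = ∑ s ∈ S, h (α s) (α' s) * g s := by
  unfold pushW
  have e1 : ∀ (y : ZMod q) (y' : ZMod q'),
      h y y' * (∑ s ∈ S, if α s = y ∧ α' s = y' then g s else 0)
      = ∑ s ∈ S, if α s = y then (if α' s = y' then h y y' * g s else 0)
          else 0 := by
    intro y y'
    rw [Finset.mul_sum]
    refine Finset.sum_congr rfl (fun s _ => ?_)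
    by_cases h1 : α s = y
    · by_cases h2 : α' s = y'
      · simp [h1, h2]
      · simp [h1, h2]
    · simp [h1]
  rw [Finset.sum_congr rfl (fun y _ => Finset.sum_congr rfl (fun y' _ => e1 y y'))]
  have e2 : ∀ y : ZMod q, ∑ y' : ZMod q', ∑ s ∈ S,
      (if α s = y then (if α' s = y' then h y y' * g s else 0) else 0)
      = ∑ s ∈ S, if α s = y then h y (α' s) * g s else 0 := by
    intro y
    rw [Finset.sum_comm]
    refine Finset.sum_congr rfl (fun s _ => ?_)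
    by_cases h1 : α s = y
    · simp [h1]
    · simp [h1]
  rw [Finset.sum_congr rfl (fun y _ => e2 y), Finset.sum_comm]
  refine Finset.sum_congr rfl (fun s _ => ?_)
  simp

/-- The weighted number of pairs with the same residues. -/
noncomputable def coll (q q' : ℕ) (S : Finset X) (α : X → ZMod q) (α' : X → ZMod q')
    (g : X → ℝ) : ℝ :=
  ∑ s ∈ S, ∑ s' ∈ S, if α s' = α s ∧ α' s' = α' s then g s * g s' else 0

lemma push_sq (q q' : ℕ) [Fact q.Prime] [Fact q'.Prime] (S : Finset X) (α : X → ZMod q)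
    (α' : X → ZMod q') (g : X → ℝ) :
    ∑ y : ZMod q, ∑ y' : ZMod q', pushW q q' S α α' g y y' ^ 2 = coll q q' S α α' g := by
  have e1 : ∑ y : ZMod q, ∑ y' : ZMod q', pushW q q' S α α' g y y' ^ 2
      = ∑ y : ZMod q, ∑ y' : ZMod q', pushW q q' S α α' g y y' * pushW q q' S α α' g y y' := by
    refine Finset.sum_congr rfl (fun y _ => Finset.sum_congr rfl (fun y' _ => ?_))
    rw [pow_two]
  rw [e1, push_sum q q' S α α' g (fun y y' => pushW q q' S α α' g y y')]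
  unfold pushW coll
  refine Finset.sum_congr rfl (fun s _ => ?_)
  rw [Finset.sum_mul]
  refine Finset.sum_congr rfl (fun s' _ => ?_)
  by_cases hc : α s' = α s ∧ α' s' = α' s
  · rw [if_pos hc, if_pos hc]; ring
  · rw [if_neg hc, if_neg hc]; ring

lemma coll_nonneg (q q' : ℕ) [Fact q.Prime] [Fact q'.Prime] (S : Finset X) (α : X → ZMod q)
    (α' : X → ZMod q') (g : X → ℝ) : 0 ≤ coll q q' S α α' g := by
  rw [← push_sq q q' S α α' g]
  exact Finset.sum_nonneg (fun y _ => Finset.sum_nonneg (fun y' _ => sq_nonneg _))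

lemma pair_bound (q q' : ℕ) [Fact q.Prime] [Fact q'.Prime] (hq : q ≠ 2) (hq' : q' ≠ 2)
    (B : Finset X) (S : Finset Y) (α : X → ZMod q) (α' : X → ZMod q') (β : Y → ZMod q)
    (β' : Y → ZMod q') (f : X → ℝ) (g : Y → ℝ) :
    (∑ b ∈ B, ∑ s ∈ S, f b * g s * (chi q (α b + β s) * chi q' (α' b + β' s))) ^ 2
      ≤ (q : ℝ) * (q' : ℝ) * (coll q q' B α α' f * coll q q' S β β' g) := by
  obtain ⟨Φ, hΦ⟩ : ∃ Φ : ZMod q → ZMod q' → ℝ, Φ = fun x x' => ∑ y : ZMod q, ∑ y' : ZMod q',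
      chi q (x + y) * chi q' (x' + y') * pushW q q' S β β' g y y' := ⟨_, rfl⟩
  have e1 : ∑ b ∈ B, ∑ s ∈ S, f b * g s * (chi q (α b + β s) * chi q' (α' b + β' s))
      = ∑ x : ZMod q, ∑ x' : ZMod q', Φ x x' * pushW q q' B α α' f x x' := by
    rw [push_sum q q' B α α' f Φ]
    refine Finset.sum_congr rfl (fun b _ => ?_)
    have e0 : Φ (α b) (α' b) = ∑ s ∈ S, chi q (α b + β s) * chi q' (α' b + β' s) * g s := by
      rw [hΦ]
      exact push_sum q q' S β β' g (fun y y' => chi q (α b + y) * chi q' (α' b + y'))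
    rw [e0, Finset.sum_mul]
    refine Finset.sum_congr rfl (fun s _ => ?_)
    ring
  have e2 : (∑ x : ZMod q, ∑ x' : ZMod q', Φ x x' * pushW q q' B α α' f x x') ^ 2
      ≤ (∑ x : ZMod q, ∑ x' : ZMod q', Φ x x' ^ 2) *
        (∑ x : ZMod q, ∑ x' : ZMod q', pushW q q' B α α' f x x' ^ 2) := by
    have := Finset.sum_mul_sq_le_sq_mul_sq (Finset.univ : Finset (ZMod q × ZMod q'))
      (fun p => Φ p.1 p.2) (fun p => pushW q q' B α α' f p.1 p.2)
    simpa only [Fintype.sum_prod_type] using this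
  have e3 := op_two q q' hq hq' (pushW q q' S β β' g)
  rw [push_sq] at e2 e3
  rw [e1]
  have e4 : ∑ x : ZMod q, ∑ x' : ZMod q', Φ x x' ^ 2 ≤
      (q : ℝ) * (q' : ℝ) * coll q q' S β β' g := by
    rw [hΦ]; exact e3
  calc _ ≤ _ := e2
    _ ≤ ((q : ℝ) * (q' : ℝ) * coll q q' S β β' g) * coll q q' B α α' f :=
        mul_le_mul_of_nonneg_right e4 (coll_nonneg q q' B α α' f)
    _ = _ := by ring

end general

/-- `x` is integral at `q`. -/
def itg (q : ℕ) (x : ℚ) : Prop := ¬ q ∣ x.den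

instance (q : ℕ) (x : ℚ) : Decidable (itg q x) := by unfold itg; infer_instance

lemma itg_ne {q : ℕ} [Fact q.Prime] {x : ℚ} (h : itg q x) : ((x.den : ℕ) : ZMod q) ≠ 0 := by
  intro h0
  exact h ((ZMod.natCast_eq_zero_iff x.den q).mp h0)

/-- Equal residues. -/
lemma res_eq {q : ℕ} [Fact q.Prime] {x y : ℚ} (hx : itg q x) (hy : itg q y)
    (h : (x : ZMod q) = (y : ZMod q)) : (q : ℤ) ∣ (x - y).num := by
  have h1 : ((x - y : ℚ) : ZMod q) = 0 := by
    rw [Rat.cast_sub_of_ne_zero (itg_ne hx) (itg_ne hy), h, sub_self]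
  have hd : itg q (x - y) := by
    intro h2
    have h3 : (x - y).den ∣ x.den * y.den := Rat.sub_den_dvd x y
    rcases (Fact.out : q.Prime).dvd_mul.mp (h2.trans h3) with h4 | h4
    · exact hx h4
    · exact hy h4
  rw [Rat.cast_def, div_eq_zero_iff] at h1
  rcases h1 with h1 | h1
  · exact (ZMod.intCast_zmod_eq_zero_iff_dvd _ _).mp h1
  · exact absurd h1 (itg_ne hd)

/-- The character of a square. -/
lemma chi_sq {q : ℕ} [Fact q.Prime] {x y : ℚ} (hx : itg q x) (hy : itg q y)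
    (hs : IsSquare (x + y)) (hn : ¬ (q : ℤ) ∣ (x + y).num) :
    chi q ((x : ZMod q) + (y : ZMod q)) = 1 := by
  obtain ⟨m, hm⟩ := hs
  have h1 : (x : ZMod q) + (y : ZMod q) = ((x + y : ℚ) : ZMod q) :=
    (Rat.cast_add_of_ne_zero (itg_ne hx) (itg_ne hy)).symm
  have hd : itg q (x + y) := by
    intro h2
    have h3 : (x + y).den ∣ x.den * y.den := Rat.add_den_dvd x y
    rcases (Fact.out : q.Prime).dvd_mul.mp (h2.trans h3) with h4 | h4
    · exact hx h4
    · exact hy h4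
  rw [h1, Rat.cast_def]
  rw [hm, Rat.mul_self_num] at hn
  have hden : (x + y).den = m.den * m.den := by rw [hm, Rat.mul_self_den]
  have hnum : (x + y).num = m.num * m.num := by rw [hm, Rat.mul_self_num]
  rw [hnum, hden]
  have hmn : ((m.num : ℤ) : ZMod q) ≠ 0 := by
    intro h0
    exact hn (Dvd.dvd.mul_right ((ZMod.intCast_zmod_eq_zero_iff_dvd _ _).mp h0) _)
  have hmd : ((m.den : ℕ) : ZMod q) ≠ 0 := by
    intro h0
    apply hd
    rw [hden]
    exact Dvd.dvd.mul_right ((ZMod.natCast_eq_zero_iff _ _).mp h0) _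
  have e : (((m.num * m.num : ℤ)) : ZMod q) / (((m.den * m.den : ℕ)) : ZMod q)
      = (((m.num : ℤ) : ZMod q) / ((m.den : ℕ) : ZMod q)) ^ 2 := by
    push_cast
    rw [div_pow, pow_two, pow_two]
  rw [e]
  unfold chi
  rw [quadraticChar_sq_one' (div_ne_zero hmn hmd)]
  norm_num

/-- The character of a square is not negative. -/
lemma chi_sq_nonneg {q : ℕ} [Fact q.Prime] {x y : ℚ} (hx : itg q x) (hy : itg q y)
    (hs : IsSquare (x + y)) : 0 ≤ chi q ((x : ZMod q) + (y : ZMod q)) := by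
  by_cases hn : (q : ℤ) ∣ (x + y).num
  · have h1 : (x : ZMod q) + (y : ZMod q) = ((x + y : ℚ) : ZMod q) :=
      (Rat.cast_add_of_ne_zero (itg_ne hx) (itg_ne hy)).symm
    have h2 : (((x + y).num : ℤ) : ZMod q) = 0 := (ZMod.intCast_zmod_eq_zero_iff_dvd _ _).mpr hn
    rw [h1, Rat.cast_def, h2, zero_div]
    unfold chi
    simp
  · rw [chi_sq hx hy hs hn]
    norm_num

/-- The character at `q`, zero if one of the arguments is not integral. -/
noncomputable def chq (q : ℕ) (x y : ℚ) : ℝ :=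
  if h : q.Prime then
    (if itg q x ∧ itg q y then @chi q ⟨h⟩ (@Rat.cast (ZMod q) (@ZMod.instField q ⟨h⟩).toRatCast x +
      @Rat.cast (ZMod q) (@ZMod.instField q ⟨h⟩).toRatCast y) else 0)
  else 0

lemma chq_eq (q : ℕ) [Fact q.Prime] (x y : ℚ) :
    chq q x y = if itg q x ∧ itg q y then chi q ((x : ZMod q) + (y : ZMod q)) else 0 := by
  unfold chq
  rw [dif_pos (Fact.out : q.Prime)]

/-- The bilinear form attached to the primes `q`, `q'`. -/
noncomputable def bil (q q' : ℕ) (B S : Finset ℚ) (f g : ℚ → ℝ) : ℝ :=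
  ∑ b ∈ B, ∑ s ∈ S, f b * g s * (chq q b s * chq q' b s)

/-- Elements integral at two primes. -/
def rst (q q' : ℕ) (B : Finset ℚ) : Finset ℚ := B.filter (fun b => itg q b ∧ itg q' b)

/-- Collisions. -/
noncomputable def clq (q q' : ℕ) (B : Finset ℚ) (f : ℚ → ℝ) : ℝ :=
  ∑ b ∈ B, ∑ b' ∈ B, if (itg q b ∧ itg q b' ∧ (q : ℤ) ∣ (b - b').num) ∧
    (itg q' b ∧ itg q' b' ∧ (q' : ℤ) ∣ (b - b').num) then f b * f b' else 0

lemma coll_le (q q' : ℕ) [Fact q.Prime] [Fact q'.Prime] (B : Finset ℚ) (f : ℚ → ℝ)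
    (hf : ∀ b ∈ B, 0 ≤ f b) :
    coll q q' (rst q q' B) (fun x : ℚ => (x : ZMod q)) (fun x : ℚ => (x : ZMod q')) f
      ≤ clq q q' B f := by
  unfold coll clq rst
  rw [Finset.sum_filter]
  refine Finset.sum_le_sum fun b hb => ?_
  by_cases h1 : itg q b ∧ itg q' b
  · rw [if_pos h1, Finset.sum_filter]
    refine Finset.sum_le_sum fun b' hb' => ?_
    have h0 : 0 ≤ f b * f b' := mul_nonneg (hf b hb) (hf b' hb')
    by_cases h2 : itg q b' ∧ itg q' b'
    · rw [if_pos h2]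
      by_cases h3 : ((b' : ℚ) : ZMod q) = ((b : ℚ) : ZMod q) ∧ ((b' : ℚ) : ZMod q') = ((b : ℚ) : ZMod q')
      · rw [if_pos h3, if_pos]
        exact ⟨⟨h1.1, h2.1, res_eq h1.1 h2.1 h3.1.symm⟩, h1.2, h2.2, res_eq h1.2 h2.2 h3.2.symm⟩
      · rw [if_neg h3]
        split_ifs
        · exact h0
        · exact le_refl _
    · rw [if_neg h2]
      split_ifs
      · exact h0
      · exact le_refl _
  · rw [if_neg h1]
    refine Finset.sum_nonneg fun b' hb' => ?_
    split_ifs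
    · exact mul_nonneg (hf b hb) (hf b' hb')
    · exact le_refl _

lemma clq_nonneg (q q' : ℕ) (B : Finset ℚ) (f : ℚ → ℝ) (hf : ∀ b ∈ B, 0 ≤ f b) :
    0 ≤ clq q q' B f := by
  unfold clq
  refine Finset.sum_nonneg fun b hb => Finset.sum_nonneg fun b' hb' => ?_
  split_ifs
  · exact mul_nonneg (hf b hb) (hf b' hb')
  · exact le_refl _

lemma bil_bound (q q' : ℕ) (pq : q.Prime) (pq' : q'.Prime) (hq : q ≠ 2) (hq' : q' ≠ 2)
    (B S : Finset ℚ) (f g : ℚ → ℝ) (hf : ∀ b ∈ B, 0 ≤ f b) (hg : ∀ s ∈ S, 0 ≤ g s) :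
    bil q q' B S f g ^ 2 ≤ (q : ℝ) * (q' : ℝ) * (clq q q' B f * clq q q' S g) := by
  have : Fact q.Prime := ⟨pq⟩
  have : Fact q'.Prime := ⟨pq'⟩
  have e1 : bil q q' B S f g = ∑ b ∈ rst q q' B, ∑ s ∈ rst q q' S, f b * g s *
      (chi q ((b : ZMod q) + (s : ZMod q)) * chi q' ((b : ZMod q') + (s : ZMod q'))) := by
    unfold bil rst
    rw [Finset.sum_filter]
    refine Finset.sum_congr rfl fun b _ => ?_
    by_cases h1 : itg q b ∧ itg q' b
    · rw [if_pos h1, Finset.sum_filter]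
      refine Finset.sum_congr rfl fun s _ => ?_
      rw [chq_eq, chq_eq]
      by_cases h2 : itg q s ∧ itg q' s
      · rw [if_pos h2, if_pos ⟨h1.1, h2.1⟩, if_pos ⟨h1.2, h2.2⟩]
      · rw [if_neg h2]
        by_cases h3 : itg q s
        · have h4 : ¬ itg q' s := fun h => h2 ⟨h3, h⟩
          rw [if_neg (fun h : itg q' b ∧ itg q' s => h4 h.2)]
          ring
        · rw [if_neg (fun h : itg q b ∧ itg q s => h3 h.2)]
          ring
    · rw [if_neg h1]
      refine Finset.sum_eq_zero fun s _ => ?_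
      rw [chq_eq, chq_eq]
      by_cases h3 : itg q b
      · have h4 : ¬ itg q' b := fun h => h1 ⟨h3, h⟩
        rw [if_neg (fun h : itg q' b ∧ itg q' s => h4 h.1)]
        ring
      · rw [if_neg (fun h : itg q b ∧ itg q s => h3 h.1)]
        ring
  rw [e1]
  refine (pair_bound q q' hq hq' (rst q q' B) (rst q q' S) (fun x : ℚ => (x : ZMod q))
    (fun x : ℚ => (x : ZMod q')) (fun x : ℚ => (x : ZMod q)) (fun x : ℚ => (x : ZMod q'))
    f g).trans ?_
  have h1 := coll_le q q' B f hf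
  have h2 := coll_le q q' S g hg
  have h3 := coll_nonneg q q' (rst q q' B) (fun x : ℚ => (x : ZMod q))
    (fun x : ℚ => (x : ZMod q')) f
  have h4 := coll_nonneg q q' (rst q q' S) (fun x : ℚ => (x : ZMod q))
    (fun x : ℚ => (x : ZMod q')) g
  have h5 : (0 : ℝ) ≤ (q : ℝ) * (q' : ℝ) := by positivity
  exact mul_le_mul_of_nonneg_left (mul_le_mul h1 h2 h4 (clq_nonneg q q' B f hf)) h5

/-- Primes at which two rationals collide. -/
def cpr (P : Finset ℕ) (b b' : ℚ) : Finset ℕ :=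
  P.filter (fun q : ℕ => itg q b ∧ itg q b' ∧ (q : ℤ) ∣ (b - b').num)

/-- Counting pairs of primes. -/
lemma clq_sum (P : Finset ℕ) (W : ℕ) (B : Finset ℚ) (f : ℚ → ℝ)
    (hf : ∀ b ∈ B, 0 ≤ f b)
    (hB : ∀ b ∈ B, ∀ b' ∈ B, b ≠ b' → (cpr P b b').card ≤ W) :
    ∑ p ∈ P ×ˢ P, clq p.1 p.2 B f
      ≤ (P.card : ℝ) ^ 2 * (∑ b ∈ B, f b ^ 2) + (W : ℝ) ^ 2 * (∑ b ∈ B, f b) ^ 2 := by
  have h1 : ∑ p ∈ P ×ˢ P, clq p.1 p.2 B f
      = ∑ b ∈ B, ∑ b' ∈ B, (f b * f b') * ((cpr P b b').card : ℝ) ^ 2 := by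
    unfold clq
    rw [Finset.sum_comm]
    refine Finset.sum_congr rfl (fun b _ => ?_)
    rw [Finset.sum_comm]
    refine Finset.sum_congr rfl (fun b' _ => ?_)
    rw [← Finset.sum_filter, Finset.sum_const, nsmul_eq_mul]
    have : ((P ×ˢ P).filter (fun p : ℕ × ℕ => (itg p.1 b ∧ itg p.1 b' ∧ (p.1 : ℤ) ∣ (b - b').num) ∧
        (itg p.2 b ∧ itg p.2 b' ∧ (p.2 : ℤ) ∣ (b - b').num)))
        = (cpr P b b') ×ˢ (cpr P b b') := by
      ext p
      unfold cpr
      simp only [Finset.mem_filter, Finset.mem_product]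
      tauto
    rw [this, Finset.card_product]
    push_cast
    ring
  rw [h1]
  have h2 : ∀ b ∈ B, ∀ b' ∈ B, (f b * f b') * ((cpr P b b').card : ℝ) ^ 2
        ≤ (if b = b' then (P.card : ℝ) ^ 2 * (f b * f b') else 0)
          + (W : ℝ) ^ 2 * (f b * f b') := by
    intro b hb b' hb'
    have hff : 0 ≤ f b * f b' := mul_nonneg (hf b hb) (hf b' hb')
    split_ifs with h
    · have hc : ((cpr P b b').card : ℝ) ^ 2 ≤ (P.card : ℝ) ^ 2 := by
        have : ((cpr P b b').card : ℝ) ≤ (P.card : ℝ) := by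
          exact_mod_cast Finset.card_filter_le _ _
        exact pow_le_pow_left₀ (Nat.cast_nonneg _) this 2
      have := mul_le_mul_of_nonneg_left hc hff
      have h0 : 0 ≤ (W : ℝ) ^ 2 * (f b * f b') := mul_nonneg (sq_nonneg _) hff
      linarith
    · have hc : ((cpr P b b').card : ℝ) ^ 2 ≤ (W : ℝ) ^ 2 := by
        have : ((cpr P b b').card : ℝ) ≤ (W : ℝ) := by
          exact_mod_cast hB b hb b' hb' h
        exact pow_le_pow_left₀ (Nat.cast_nonneg _) this 2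
      have := mul_le_mul_of_nonneg_left hc hff
      linarith
  calc _ ≤ ∑ b ∈ B, ∑ b' ∈ B, ((if b = b' then (P.card : ℝ) ^ 2 * (f b * f b') else 0)
          + (W : ℝ) ^ 2 * (f b * f b')) :=
        Finset.sum_le_sum (fun b hb => Finset.sum_le_sum (fun b' hb' => h2 b hb b' hb'))
    _ = _ := by
        have e1 : ∀ b ∈ B, ∑ b' ∈ B, ((if b = b' then (P.card : ℝ) ^ 2 * (f b * f b') else 0)
          + (W : ℝ) ^ 2 * (f b * f b'))
            = (P.card : ℝ) ^ 2 * f b ^ 2 + (W : ℝ) ^ 2 * (f b * ∑ b' ∈ B, f b') := by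
          intro b hb
          rw [Finset.sum_add_distrib, Finset.sum_ite_eq, if_pos hb, ← Finset.mul_sum,
            ← Finset.mul_sum]
          ring
        rw [Finset.sum_congr rfl e1, Finset.sum_add_distrib, ← Finset.mul_sum, ← Finset.mul_sum,
          ← Finset.sum_mul]
        ring

/-- Primes at which a pair of rationals is bad. -/
def bpr (P : Finset ℕ) (b s : ℚ) : Finset ℕ :=
  P.filter (fun q : ℕ => q ∣ b.den ∨ q ∣ s.den ∨ (q : ℤ) ∣ (b + s).num)

/-- The square sum sieve for rationals. -/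
theorem sieve (P : Finset ℕ) (D W : ℕ) (hP : ∀ q ∈ P, q.Prime ∧ q ≠ 2 ∧ q ≤ D)
    (hWP : W ≤ P.card) (B S : Finset ℚ) (f g : ℚ → ℝ)
    (hf : ∀ b ∈ B, 0 ≤ f b) (hg : ∀ s ∈ S, 0 ≤ g s)
    (hB : ∀ b ∈ B, ∀ b' ∈ B, b ≠ b' → (cpr P b b').card ≤ W)
    (hS : ∀ s ∈ S, ∀ s' ∈ S, s ≠ s' → (cpr P s s').card ≤ W)
    (Good : ℚ → ℚ → Prop) [∀ b s, Decidable (Good b s)]
    (hG : ∀ b ∈ B, ∀ s ∈ S, Good b s → IsSquare (b + s) ∧ (bpr P b s).card ≤ W) :
    ((P.card : ℝ) - W) ^ 2 * (∑ b ∈ B, ∑ s ∈ S, if Good b s then f b * g s else 0)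
      ≤ (D : ℝ) *
        (Real.sqrt ((P.card : ℝ) ^ 2 * (∑ b ∈ B, f b ^ 2) + (W : ℝ) ^ 2 * (∑ b ∈ B, f b) ^ 2) *
        Real.sqrt ((P.card : ℝ) ^ 2 * (∑ s ∈ S, g s ^ 2) + (W : ℝ) ^ 2 * (∑ s ∈ S, g s) ^ 2)) := by
  have hWP' : (W : ℝ) ≤ (P.card : ℝ) := by exact_mod_cast hWP
  -- step one: pointwise lower bound
  have h1 : ∀ b ∈ B, ∀ s ∈ S, ((P.card : ℝ) - W) ^ 2 * (if Good b s then f b * g s else 0)
      ≤ (f b * g s) * (∑ q ∈ P, chq q b s) ^ 2 := by
    intro b hb s hs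
    have hfg : 0 ≤ f b * g s := mul_nonneg (hf b hb) (hg s hs)
    split_ifs with h
    · obtain ⟨hsq, hc⟩ := hG b hb s hs h
      have e : (P.card : ℝ) - ((bpr P b s).card : ℝ) ≤ ∑ q ∈ P, chq q b s := by
        have e1 : ∀ q ∈ P, 1 - (if q ∣ b.den ∨ q ∣ s.den ∨ (q : ℤ) ∣ (b + s).num then (1 : ℝ) else 0)
            ≤ chq q b s := by
          intro q hq
          have : Fact q.Prime := ⟨(hP q hq).1⟩
          rw [chq_eq]
          split_ifs with h2 h3 h3
          · have h4 := chi_sq_nonneg h3.1 h3.2 hsq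
            linarith
          · linarith
          · push Not at h2
            have h4 := chi_sq h3.1 h3.2 hsq h2.2.2
            linarith
          · exfalso
            push Not at h2
            exact h3 ⟨h2.1, h2.2.1⟩
        have e2 := Finset.sum_le_sum e1
        rw [Finset.sum_sub_distrib] at e2
        have e3 : ∑ q ∈ P, (if q ∣ b.den ∨ q ∣ s.den ∨ (q : ℤ) ∣ (b + s).num then (1 : ℝ) else 0)
            = ((bpr P b s).card : ℝ) := by
          unfold bpr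
          rw [Finset.card_filter]
          push_cast
          rfl
        rw [e3] at e2
        simpa using e2
      have hc' : ((bpr P b s).card : ℝ) ≤ W := by exact_mod_cast hc
      have h2 : ((P.card : ℝ) - W) ^ 2 ≤ (∑ q ∈ P, chq q b s) ^ 2 :=
        pow_le_pow_left₀ (by linarith) (by linarith) 2
      calc ((P.card : ℝ) - W) ^ 2 * (f b * g s) = (f b * g s) * ((P.card : ℝ) - W) ^ 2 := by ring
        _ ≤ _ := mul_le_mul_of_nonneg_left h2 hfg
    · rw [mul_zero]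
      exact mul_nonneg hfg (sq_nonneg _)
  -- step two: expansion
  have h2 : ∑ b ∈ B, ∑ s ∈ S, (f b * g s) * (∑ q ∈ P, chq q b s) ^ 2
      = ∑ p ∈ P ×ˢ P, bil p.1 p.2 B S f g := by
    unfold bil
    rw [Finset.sum_comm (s := P ×ˢ P)]
    refine Finset.sum_congr rfl (fun b _ => ?_)
    rw [Finset.sum_comm (s := P ×ˢ P)]
    refine Finset.sum_congr rfl (fun s _ => ?_)
    rw [pow_two, Finset.sum_mul_sum, ← Finset.sum_product', Finset.mul_sum]
  -- step three: bound for each pair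
  have h3 : ∀ p ∈ P ×ˢ P, bil p.1 p.2 B S f g
      ≤ (D : ℝ) * (Real.sqrt (clq p.1 p.2 B f) * Real.sqrt (clq p.1 p.2 S g)) := by
    intro p hp
    rw [Finset.mem_product] at hp
    obtain ⟨pp, p2, pD⟩ := hP p.1 hp.1
    obtain ⟨pp', p2', pD'⟩ := hP p.2 hp.2
    have hb := bil_bound p.1 p.2 pp pp' p2 p2' B S f g hf hg
    have c1 := clq_nonneg p.1 p.2 B f hf
    have c2 := clq_nonneg p.1 p.2 S g hg
    have hDD : (p.1 : ℝ) * (p.2 : ℝ) ≤ (D : ℝ) * (D : ℝ) := by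
      have a1 : (p.1 : ℝ) ≤ D := by exact_mod_cast pD
      have a2 : (p.2 : ℝ) ≤ D := by exact_mod_cast pD'
      exact mul_le_mul a1 a2 (Nat.cast_nonneg _) (Nat.cast_nonneg _)
    have hb2 : bil p.1 p.2 B S f g ^ 2
        ≤ ((D : ℝ) * (Real.sqrt (clq p.1 p.2 B f) * Real.sqrt (clq p.1 p.2 S g))) ^ 2 := by
      calc _ ≤ _ := hb
        _ ≤ (D : ℝ) * (D : ℝ) * (clq p.1 p.2 B f * clq p.1 p.2 S g) :=
            mul_le_mul_of_nonneg_right hDD (mul_nonneg c1 c2)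
        _ = _ := by
            rw [mul_pow, mul_pow, Real.sq_sqrt c1, Real.sq_sqrt c2]; ring
    exact le_of_sq_le_sq hb2 (by positivity)
  -- step four: Cauchy
  have h4 : ∑ p ∈ P ×ˢ P, Real.sqrt (clq p.1 p.2 B f) * Real.sqrt (clq p.1 p.2 S g)
      ≤ Real.sqrt (∑ p ∈ P ×ˢ P, clq p.1 p.2 B f) *
        Real.sqrt (∑ p ∈ P ×ˢ P, clq p.1 p.2 S g) := by
    have hcB : ∀ p ∈ P ×ˢ P, 0 ≤ clq p.1 p.2 B f := fun p _ => clq_nonneg p.1 p.2 B f hf
    have hcS : ∀ p ∈ P ×ˢ P, 0 ≤ clq p.1 p.2 S g := fun p _ => clq_nonneg p.1 p.2 S g hg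
    rw [← Real.sqrt_mul (Finset.sum_nonneg hcB)]
    apply Real.le_sqrt_of_sq_le
    have := Finset.sum_mul_sq_le_sq_mul_sq (P ×ˢ P)
      (fun p => Real.sqrt (clq p.1 p.2 B f)) (fun p => Real.sqrt (clq p.1 p.2 S g))
    refine this.trans (le_of_eq ?_)
    congr 1
    · exact Finset.sum_congr rfl (fun p hp => Real.sq_sqrt (hcB p hp))
    · exact Finset.sum_congr rfl (fun p hp => Real.sq_sqrt (hcS p hp))
  have h5 := clq_sum P W B f hf hB
  have h6 := clq_sum P W S g hg hS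
  calc ((P.card : ℝ) - W) ^ 2 * (∑ b ∈ B, ∑ s ∈ S, if Good b s then f b * g s else 0)
      = ∑ b ∈ B, ∑ s ∈ S, ((P.card : ℝ) - W) ^ 2 * (if Good b s then f b * g s else 0) := by
        rw [Finset.mul_sum]
        refine Finset.sum_congr rfl (fun b _ => ?_)
        rw [Finset.mul_sum]
    _ ≤ ∑ b ∈ B, ∑ s ∈ S, (f b * g s) * (∑ q ∈ P, chq q b s) ^ 2 :=
        Finset.sum_le_sum (fun b hb => Finset.sum_le_sum (fun s hs => h1 b hb s hs))
    _ = ∑ p ∈ P ×ˢ P, bil p.1 p.2 B S f g := h2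
    _ ≤ ∑ p ∈ P ×ˢ P, (D : ℝ) *
          (Real.sqrt (clq p.1 p.2 B f) * Real.sqrt (clq p.1 p.2 S g)) :=
        Finset.sum_le_sum h3
    _ = (D : ℝ) * ∑ p ∈ P ×ˢ P,
          (Real.sqrt (clq p.1 p.2 B f) * Real.sqrt (clq p.1 p.2 S g)) := by
        rw [Finset.mul_sum]
    _ ≤ (D : ℝ) * (Real.sqrt (∑ p ∈ P ×ˢ P, clq p.1 p.2 B f) *
        Real.sqrt (∑ p ∈ P ×ˢ P, clq p.1 p.2 S g)) :=
        mul_le_mul_of_nonneg_left h4 (Nat.cast_nonneg _)
    _ ≤ _ := by
        refine mul_le_mul_of_nonneg_left ?_ (Nat.cast_nonneg _)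
        exact mul_le_mul (Real.sqrt_le_sqrt h5) (Real.sqrt_le_sqrt h6) (Real.sqrt_nonneg _)
          (Real.sqrt_nonneg _)

end H45SR
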