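import Pool.Agent.H91.SQ.Energy2
import Pool.Agent.H91.SQ.Primes2
import Pool.Agent.H45.SR.Sieve
import Pool.Agent.H45.SR.Ht

set_option autoImplicit false

namespace H45SR

open Finset

lemma sum_neg_image {V : Finset ℚ} (F : ℚ → ℝ) :
    ∑ s ∈ V.image (fun v => -v), F s = ∑ v ∈ V, F (-v) := by
  rw [Finset.sum_image]
  intro a _ b _ h
  exact neg_injective h

/-- The square sum sieve as a bilinear inequality with one free parameter `t`. -/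
theorem bil' (M t : ℝ) (hM : 2 ≤ M) (ht : 1 ≤ t) (B V : Finset ℚ) (f g : ℚ → ℝ)
    (hf : ∀ b ∈ B, 0 ≤ f b) (hg : ∀ v ∈ V, 0 ≤ g v)
    (hBd : ∀ b ∈ B, ((b.den : ℕ) : ℝ) ≤ M) (hVd : ∀ v ∈ V, ((v.den : ℕ) : ℝ) ≤ M)
    (hB : ∀ b ∈ B, ∀ b' ∈ B, ((|(b - b').num| : ℤ) : ℝ) ≤ M)
    (hV : ∀ v ∈ V, ∀ v' ∈ V, ((|(v - v').num| : ℤ) : ℝ) ≤ M)
    (Good : ℚ → ℚ → Prop) [∀ b v, Decidable (Good b v)]
    (hG : ∀ b ∈ B, ∀ v ∈ V, Good b v →
      IsSquare (b - v) ∧ b - v ≠ 0 ∧ ((|(b - v).num| : ℤ) : ℝ) ≤ M) :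
    (∑ b ∈ B, ∑ v ∈ V, if Good b v then f b * g v else 0) ^ 2 ≤
      (2500 * Real.log M) ^ 2 *
        ((t * (∑ b ∈ B, f b ^ 2) + (∑ b ∈ B, f b) ^ 2 / t) *
          (t * (∑ v ∈ V, g v ^ 2) + (∑ v ∈ V, g v) ^ 2 / t)) := by
  classical
  have hlog2 : (0.69 : ℝ) ≤ Real.log 2 := by
    have := Real.log_two_gt_d9
    linarith
  have hlM2 : Real.log 2 ≤ Real.log M := Real.log_le_log (by norm_num) hM
  have hlM : (0.69 : ℝ) ≤ Real.log M := hlog2.trans hlM2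
  have ht0 : 0 < t := by linarith
  obtain ⟨U, hU⟩ : ∃ U : ℝ, U = t * Real.log M := ⟨_, rfl⟩
  have hU1 : 0.69 ≤ U := by rw [hU]; nlinarith
  have hUM : Real.log M ≤ U := by rw [hU]; nlinarith
  obtain ⟨D, hD⟩ : ∃ D : ℕ, D = ⌈600 * U⌉₊ := ⟨_, rfl⟩
  have hD1 : 600 * U ≤ (D : ℝ) := by rw [hD]; exact Nat.le_ceil _
  have hD2 : (D : ℝ) ≤ 600 * U + 1 := by
    rw [hD]; exact (Nat.ceil_lt_add_one (by linarith)).le
  have hD400r : (400 : ℝ) ≤ D := by linarith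
  have hD400 : 400 ≤ D := by exact_mod_cast hD400r
  obtain ⟨P, hP, hPz, hPc⟩ := H91SQ.exists_primes2 D hD400
  have hlD : 0 < Real.log D := Real.log_pos (by linarith)
  have hz1 : 1 < Real.sqrt D := by
    apply Real.lt_sqrt_of_sq_lt; linarith
  have hlz : Real.log (Real.sqrt D) = Real.log D / 2 := by
    rw [Real.log_sqrt (by linarith)]
  obtain ⟨w, hw⟩ : ∃ w : ℕ, w = ⌊Real.log M / Real.log (Real.sqrt D)⌋₊ := ⟨_, rfl⟩
  have hquot0 : 0 ≤ Real.log M / Real.log (Real.sqrt D) := by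
    rw [hlz]; positivity
  have hwle : (w : ℝ) ≤ 2 * Real.log M / Real.log D := by
    calc (w : ℝ) ≤ Real.log M / Real.log (Real.sqrt D) := by rw [hw]; exact Nat.floor_le hquot0
      _ = 2 * Real.log M / Real.log D := by rw [hlz]; field_simp
  obtain ⟨W, hW⟩ : ∃ W : ℕ, W = 3 * w := ⟨_, rfl⟩
  have hWle : (W : ℝ) ≤ 6 * Real.log M / Real.log D := by
    have e : 6 * Real.log M / Real.log D = 3 * (2 * Real.log M / Real.log D) := by ring
    rw [hW, e]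
    push_cast
    linarith
  obtain ⟨Q, hQ⟩ : ∃ Q : ℝ, Q = (P.card : ℝ) := ⟨_, rfl⟩
  have hPge : 150 * U / Real.log D ≤ Q := by
    rw [hQ]
    calc 150 * U / Real.log D = (600 * U) / (4 * Real.log D) := by field_simp; ring
      _ ≤ (D : ℝ) / (4 * Real.log D) := by
          apply div_le_div_of_nonneg_right hD1 (by positivity)
      _ ≤ _ := hPc
  have hWt : (W : ℝ) * t ≤ Q := by
    calc (W : ℝ) * t ≤ (6 * Real.log M / Real.log D) * t :=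
          mul_le_mul_of_nonneg_right hWle ht0.le
      _ = 6 * U / Real.log D := by rw [hU]; ring
      _ ≤ 150 * U / Real.log D := by
          apply div_le_div_of_nonneg_right _ hlD.le
          linarith
      _ ≤ _ := hPge
  have h2W : 2 * (W : ℝ) ≤ Q := by
    calc 2 * (W : ℝ) ≤ 2 * (6 * Real.log M / Real.log D) := by linarith
      _ = 12 * Real.log M / Real.log D := by ring
      _ ≤ 150 * U / Real.log D := by
          apply div_le_div_of_nonneg_right _ hlD.le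
          linarith
      _ ≤ _ := hPge
  have hQ0 : 0 < Q := lt_of_lt_of_le (by positivity) hPge
  have hW0 : (0 : ℝ) ≤ W := Nat.cast_nonneg _
  have hWP : W ≤ P.card := by
    have : (W : ℝ) ≤ (P.card : ℝ) := by rw [← hQ]; linarith
    exact_mod_cast this
  have hdvd : ∀ h : ℤ, h ≠ 0 → ((|h| : ℤ) : ℝ) ≤ M →
      (P.filter (fun q : ℕ => (q : ℤ) ∣ h)).card ≤ w := by
    intro h h0 hh
    rw [hw]
    apply Nat.le_floor
    exact H91SQ.card_prime_dvd_gt P (fun q hq => (hP q hq).1) (Real.sqrt D) hz1 hPz h h0 M hh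
  have hden : ∀ x : ℚ, ((x.den : ℕ) : ℝ) ≤ M →
      (P.filter (fun q : ℕ => q ∣ x.den)).card ≤ w := by
    intro x hx
    have h1 := hdvd (x.den : ℤ) (by exact_mod_cast x.den_nz)
      (by
        rw [abs_of_nonneg (by positivity)]
        exact_mod_cast hx)
    refine le_trans (Finset.card_le_card ?_) h1
    intro q hq
    rw [Finset.mem_filter] at hq ⊢
    exact ⟨hq.1, Int.natCast_dvd_natCast.mpr hq.2⟩
  have hcpr : ∀ b b' : ℚ, b ≠ b' → ((|(b - b').num| : ℤ) : ℝ) ≤ M → (cpr P b b').card ≤ W := by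
    intro b b' hne hh
    have h0 : (b - b').num ≠ 0 := by
      rw [Ne, Rat.num_eq_zero]
      exact sub_ne_zero.mpr hne
    refine le_trans (Finset.card_le_card ?_) ((hdvd _ h0 hh).trans (by omega))
    intro q hq
    unfold cpr at hq
    rw [Finset.mem_filter] at hq ⊢
    exact ⟨hq.1, hq.2.2.2⟩
  have hs := sieve P D W hP hWP B (V.image (fun v => -v)) f (fun s => g (-s)) hf
    (by
      intro s hs
      obtain ⟨v, hv, rfl⟩ := Finset.mem_image.mp hs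
      rw [neg_neg]
      exact hg v hv)
    (fun b hb b' hb' hne => hcpr b b' hne (hB b hb b' hb'))
    (by
      intro s hs s' hs' hne
      obtain ⟨v, hv, rfl⟩ := Finset.mem_image.mp hs
      obtain ⟨v', hv', rfl⟩ := Finset.mem_image.mp hs'
      refine hcpr _ _ hne ?_
      have e : -v - -v' = v' - v := by ring
      rw [e]
      exact hV v' hv' v hv)
    (fun b s => Good b (-s))
    (by
      intro b hb s hs hgd
      obtain ⟨v, hv, rfl⟩ := Finset.mem_image.mp hs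
      rw [neg_neg] at hgd
      obtain ⟨h1, h2, h3⟩ := hG b hb v hv hgd
      rw [← sub_eq_add_neg]
      refine ⟨h1, ?_⟩
      have h0 : (b - v).num ≠ 0 := by
        rw [Ne, Rat.num_eq_zero]
        exact h2
      have c1 := hden b (hBd b hb)
      have c2 := hden v (hVd v hv)
      have c3 := hdvd _ h0 h3
      have c4 : bpr P b (-v) ⊆ (P.filter (fun q : ℕ => q ∣ b.den) ∪
          P.filter (fun q : ℕ => q ∣ v.den)) ∪ P.filter (fun q : ℕ => (q : ℤ) ∣ (b - v).num) := by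
        intro q hq
        unfold bpr at hq
        rw [Finset.mem_filter, ← sub_eq_add_neg, Rat.den_neg_eq_den] at hq
        rw [Finset.mem_union, Finset.mem_union, Finset.mem_filter, Finset.mem_filter,
          Finset.mem_filter]
        rcases hq.2 with h | h | h
        · exact Or.inl (Or.inl ⟨hq.1, h⟩)
        · exact Or.inl (Or.inr ⟨hq.1, h⟩)
        · exact Or.inr ⟨hq.1, h⟩
      have c5 := Finset.card_le_card c4
      have c6 := Finset.card_union_le (P.filter (fun q : ℕ => q ∣ b.den) ∪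
          P.filter (fun q : ℕ => q ∣ v.den)) (P.filter (fun q : ℕ => (q : ℤ) ∣ (b - v).num))
      have c7 := Finset.card_union_le (P.filter (fun q : ℕ => q ∣ b.den))
          (P.filter (fun q : ℕ => q ∣ v.den))
      omega)
  simp only [sum_neg_image, neg_neg] at hs
  obtain ⟨T, hT⟩ : ∃ T : ℝ, T = ∑ b ∈ B, ∑ v ∈ V, if Good b v then f b * g v else 0 := ⟨_, rfl⟩
  obtain ⟨F2, hF2⟩ : ∃ F2 : ℝ, F2 = ∑ b ∈ B, f b ^ 2 := ⟨_, rfl⟩
  obtain ⟨F1, hF1⟩ : ∃ F1 : ℝ, F1 = ∑ b ∈ B, f b := ⟨_, rfl⟩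
  obtain ⟨G2, hG2⟩ : ∃ G2 : ℝ, G2 = ∑ v ∈ V, g v ^ 2 := ⟨_, rfl⟩
  obtain ⟨G1, hG1⟩ : ∃ G1 : ℝ, G1 = ∑ v ∈ V, g v := ⟨_, rfl⟩
  rw [← hT, ← hF2, ← hF1, ← hG2, ← hG1, ← hQ] at hs
  rw [← hT, ← hF2, ← hF1, ← hG2, ← hG1]
  have hT0 : 0 ≤ T := by
    rw [hT]
    refine Finset.sum_nonneg (fun b hb => Finset.sum_nonneg (fun v hv => ?_))
    split_ifs
    · exact mul_nonneg (hf b hb) (hg v hv)
    · exact le_refl _
  have hF20 : 0 ≤ F2 := by rw [hF2]; exact Finset.sum_nonneg (fun _ _ => sq_nonneg _)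
  have hG20 : 0 ≤ G2 := by rw [hG2]; exact Finset.sum_nonneg (fun _ _ => sq_nonneg _)
  obtain ⟨Φ, hΦ⟩ : ∃ Φ : ℝ, Φ = t * F2 + F1 ^ 2 / t := ⟨_, rfl⟩
  obtain ⟨Γ, hΓ⟩ : ∃ Γ : ℝ, Γ = t * G2 + G1 ^ 2 / t := ⟨_, rfl⟩
  rw [← hΦ, ← hΓ]
  have hΦ0 : 0 ≤ Φ := by rw [hΦ]; positivity
  have hΓ0 : 0 ≤ Γ := by rw [hΓ]; positivity
  have key : ∀ X2 X1 : ℝ, Q ^ 2 * X2 + (W : ℝ) ^ 2 * X1 ^ 2 ≤ Q ^ 2 / t * (t * X2 + X1 ^ 2 / t) := by
    intro X2 X1
    have e1 : Q ^ 2 / t * (t * X2 + X1 ^ 2 / t) = Q ^ 2 * X2 + (Q / t) ^ 2 * X1 ^ 2 := by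
      field_simp
    rw [e1]
    have e2 : (W : ℝ) ≤ Q / t := by rw [le_div_iff₀ ht0]; exact hWt
    have e3 : (W : ℝ) ^ 2 ≤ (Q / t) ^ 2 := pow_le_pow_left₀ hW0 e2 2
    have e4 := mul_le_mul_of_nonneg_right e3 (sq_nonneg X1)
    linarith
  have k1 := key F2 F1
  have k2 := key G2 G1
  rw [← hΦ] at k1
  rw [← hΓ] at k2
  have b3 : Real.sqrt (Q ^ 2 * F2 + (W : ℝ) ^ 2 * F1 ^ 2) *
      Real.sqrt (Q ^ 2 * G2 + (W : ℝ) ^ 2 * G1 ^ 2) ≤ Q ^ 2 / t * Real.sqrt (Φ * Γ) := by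
    calc _ ≤ Real.sqrt (Q ^ 2 / t * Φ) * Real.sqrt (Q ^ 2 / t * Γ) :=
          mul_le_mul (Real.sqrt_le_sqrt k1) (Real.sqrt_le_sqrt k2) (Real.sqrt_nonneg _)
            (Real.sqrt_nonneg _)
      _ = Q ^ 2 / t * Real.sqrt (Φ * Γ) := by
          rw [← Real.sqrt_mul (by positivity)]
          have : Q ^ 2 / t * Φ * (Q ^ 2 / t * Γ) = (Q ^ 2 / t) ^ 2 * (Φ * Γ) := by ring
          rw [this, Real.sqrt_mul (by positivity), Real.sqrt_sq (by positivity)]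
  have b4 : (Q / 2) ^ 2 ≤ (Q - W) ^ 2 := pow_le_pow_left₀ (by positivity) (by linarith) 2
  have b5 : (Q / 2) ^ 2 * T ≤ (D : ℝ) * (Q ^ 2 / t * Real.sqrt (Φ * Γ)) :=
    calc (Q / 2) ^ 2 * T ≤ (Q - W) ^ 2 * T := mul_le_mul_of_nonneg_right b4 hT0
      _ ≤ _ := hs
      _ ≤ _ := mul_le_mul_of_nonneg_left b3 (Nat.cast_nonneg _)
  have hsq0 : 0 ≤ Real.sqrt (Φ * Γ) := Real.sqrt_nonneg _
  have b6 : T ≤ 4 * ((D : ℝ) / t) * Real.sqrt (Φ * Γ) := by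
    have hQ2 : 0 < Q ^ 2 := by positivity
    have : Q ^ 2 * T ≤ Q ^ 2 * (4 * ((D : ℝ) / t) * Real.sqrt (Φ * Γ)) := by
      have e : Q ^ 2 * (4 * ((D : ℝ) / t) * Real.sqrt (Φ * Γ))
          = 4 * ((D : ℝ) * (Q ^ 2 / t * Real.sqrt (Φ * Γ))) := by ring
      rw [e]
      nlinarith
    exact le_of_mul_le_mul_left this hQ2
  have b7 : (D : ℝ) / t ≤ 602 * Real.log M := by
    rw [div_le_iff₀ ht0]
    have : 602 * Real.log M * t = 602 * U := by rw [hU]; ring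
    rw [this]
    linarith
  have b8 : T ≤ 2500 * Real.log M * Real.sqrt (Φ * Γ) := by
    calc T ≤ 4 * ((D : ℝ) / t) * Real.sqrt (Φ * Γ) := b6
      _ ≤ _ := by
          apply mul_le_mul_of_nonneg_right _ hsq0
          linarith
  calc T ^ 2 ≤ (2500 * Real.log M * Real.sqrt (Φ * Γ)) ^ 2 := pow_le_pow_left₀ hT0 b8 2
    _ = (2500 * Real.log M) ^ 2 * (Φ * Γ) := by
        rw [mul_pow, Real.sq_sqrt (mul_nonneg hΦ0 hΓ0)]

end H45SR
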