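import Mathlib

set_option autoImplicit false

namespace H45SR

/-- `3 H^2 Q^6`, the height bound of the rationals in the proof. -/
noncomputable def LH (H Q : ℕ) : ℝ := 3 * ((H : ℝ) ^ 2 * (Q : ℝ) ^ 6)

/-- `18 H^4 Q^12`. -/
noncomputable def MM (H Q : ℕ) : ℝ := 2 * LH H Q ^ 2

/-- `10 (2500 log (18 H^4 Q^12))^2`. -/
noncomputable def vv (H Q : ℕ) : ℝ := 10 * (2500 * Real.log (MM H Q)) ^ 2

/-- `log (k H) + k log Q`. -/
noncomputable def lg (k : ℝ) (H Q : ℕ) : ℝ := Real.log (k * H) + k * Real.log Q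

lemma LH_one (H Q : ℕ) (hH : 2 ≤ H) (hQ : 1 ≤ Q) : 1 ≤ LH H Q := by
  have hHr : (2 : ℝ) ≤ H := by exact_mod_cast hH
  have hQr : (1 : ℝ) ≤ Q := by exact_mod_cast hQ
  have h1 : (1 : ℝ) ≤ (H : ℝ) ^ 2 := one_le_pow₀ (by linarith)
  have h2 : (1 : ℝ) ≤ (Q : ℝ) ^ 6 := one_le_pow₀ hQr
  unfold LH
  nlinarith

lemma MM_two (H Q : ℕ) (hH : 2 ≤ H) (hQ : 1 ≤ Q) : 2 ≤ MM H Q := by
  have h := LH_one H Q hH hQ
  unfold MM
  nlinarith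

lemma log_MM (H Q : ℕ) (hH : 2 ≤ H) (hQ : 1 ≤ Q) : (0.69 : ℝ) ≤ Real.log (MM H Q) := by
  have h1 := Real.log_two_gt_d9
  have h2 : Real.log 2 ≤ Real.log (MM H Q) := Real.log_le_log (by norm_num) (MM_two H Q hH hQ)
  linarith

lemma vv_one (H Q : ℕ) (hH : 2 ≤ H) (hQ : 1 ≤ Q) : 1 ≤ vv H Q := by
  have h := log_MM H Q hH hQ
  unfold vv
  nlinarith

end H45SR
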