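import Pool.Agent.H45.SR.Lv
import Pool.Agent.H45.SR.Md

set_option autoImplicit false

namespace H45SR

open Finset H45SQ

lemma col_inj {X G : Type*} [DecidableEq X] [DecidableEq G] (S : Finset X) (φ : X → G)
    (hφ : Function.Injective φ) : col S φ = S.card := by
  apply le_antisymm _ (le_col S φ)
  unfold col
  refine Finset.card_le_card_of_injOn (fun z => z.1) ?_ ?_
  · intro z hz
    have hz' := Finset.mem_coe.mp hz
    rw [Finset.mem_filter, Finset.mem_product] at hz'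
    exact Finset.mem_coe.mpr hz'.1.1
  · intro z hz w hw h
    have hz' := Finset.mem_coe.mp hz
    have hw' := Finset.mem_coe.mp hw
    rw [Finset.mem_filter] at hz' hw'
    have h3 : z.1 = z.2 := hφ hz'.2
    have h4 : w.1 = w.2 := hφ hw'.2
    have h5 : z.1 = w.1 := h
    exact Prod.ext h5 (by rw [← h3, ← h4]; exact h5)

lemma sq_is {H Q : ℕ} {A : Finset ℚ}
    (hA : ∀ a ∈ A, ∃ x : ℚ, |x.num| ≤ (H : ℤ) ∧ x.den ≤ Q ∧ a = x ^ 2) :
    ∀ a ∈ A, IsSquare a := by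
  intro a ha
  obtain ⟨x, _, _, rfl⟩ := hA a ha
  exact ⟨x, by ring⟩

/-- Squares of rationals of numerator at most `H` and denominator at most `Q`. -/
lemma hq_sq3 {H Q : ℕ} {x : ℚ} (h1 : |x.num| ≤ (H : ℤ)) (h2 : x.den ≤ Q) :
    hq ((H : ℝ) ^ 2) ((Q : ℝ) ^ 2) (x ^ 2) := by
  have e : x ^ 2 = x * x := by ring
  rw [e]
  unfold hq
  rw [Rat.mul_self_num, Rat.mul_self_den, abs_mul]
  have h1' : ((|x.num| : ℤ) : ℝ) ≤ (H : ℝ) := by exact_mod_cast h1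
  have h2' : ((x.den : ℕ) : ℝ) ≤ (Q : ℝ) := by exact_mod_cast h2
  have h3 : (0 : ℝ) ≤ ((|x.num| : ℤ) : ℝ) := by exact_mod_cast abs_nonneg x.num
  constructor
  · push_cast at *
    nlinarith
  · push_cast
    have : (0 : ℝ) ≤ (x.den : ℝ) := Nat.cast_nonneg _
    nlinarith

lemma sq_hq {H Q : ℕ} {A : Finset ℚ}
    (hA : ∀ a ∈ A, ∃ x : ℚ, |x.num| ≤ (H : ℤ) ∧ x.den ≤ Q ∧ a = x ^ 2) :
    ∀ a ∈ A, hq ((H : ℝ) ^ 2) ((Q : ℝ) ^ 2) a := by
  intro a ha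
  obtain ⟨x, h1, h2, rfl⟩ := hA a ha
  exact hq_sq3 h1 h2

lemma dif_hq {H Q : ℕ} {A : Finset ℚ}
    (hA : ∀ a ∈ A, ∃ x : ℚ, |x.num| ≤ (H : ℤ) ∧ x.den ≤ Q ∧ a = x ^ 2) :
    ∀ s ∈ dif A, hq (2 * ((H : ℝ) ^ 2 * (Q : ℝ) ^ 2)) ((Q : ℝ) ^ 4) s := by
  intro s hs
  obtain ⟨p, hp, h⟩ := Finset.mem_image.mp hs
  rw [Finset.mem_product] at hp
  have h' : p.1 - p.2 = s := h
  rw [← h']
  refine hq_mono (hq_sub (sq_hq hA _ hp.1) (sq_hq hA _ hp.2)) (le_of_eq (by ring))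
    (le_of_eq (by ring))

lemma mono_LH {H Q : ℕ} (hH : 2 ≤ H) (hQ : 1 ≤ Q) (i j : ℕ) (hi : i ≤ 2) (hj : j ≤ 6) :
    (H : ℝ) ^ i * (Q : ℝ) ^ j ≤ (H : ℝ) ^ 2 * (Q : ℝ) ^ 6 := by
  have hHr : (2 : ℝ) ≤ H := by exact_mod_cast hH
  have hQr : (1 : ℝ) ≤ Q := by exact_mod_cast hQ
  apply mul_le_mul
  · exact pow_le_pow_right₀ (by linarith) hi
  · exact pow_le_pow_right₀ hQr hj
  · positivity
  · positivity

lemma sq_LH {H Q : ℕ} (hH : 2 ≤ H) (hQ : 1 ≤ Q) {A : Finset ℚ}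
    (hA : ∀ a ∈ A, ∃ x : ℚ, |x.num| ≤ (H : ℤ) ∧ x.den ≤ Q ∧ a = x ^ 2) :
    ∀ a ∈ A, hq (LH H Q) (LH H Q) a := by
  intro a ha
  have h0 : (0 : ℝ) ≤ (H : ℝ) ^ 2 * (Q : ℝ) ^ 6 := by positivity
  have h1 := mono_LH hH hQ 2 0 (by norm_num) (by norm_num)
  have h2 := mono_LH hH hQ 0 2 (by norm_num) (by norm_num)
  rw [pow_zero, mul_one] at h1
  rw [pow_zero, one_mul] at h2
  refine hq_mono (sq_hq hA a ha) ?_ ?_ <;> (unfold LH; linarith)

lemma dif_LH {H Q : ℕ} (hH : 2 ≤ H) (hQ : 1 ≤ Q) {A : Finset ℚ}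
    (hA : ∀ a ∈ A, ∃ x : ℚ, |x.num| ≤ (H : ℤ) ∧ x.den ≤ Q ∧ a = x ^ 2) :
    ∀ s ∈ dif A, hq (LH H Q) (LH H Q) s := by
  intro a ha
  have h0 : (0 : ℝ) ≤ (H : ℝ) ^ 2 * (Q : ℝ) ^ 6 := by positivity
  have h1 := mono_LH hH hQ 2 2 (by norm_num) (by norm_num)
  have h2 := mono_LH hH hQ 0 4 (by norm_num) (by norm_num)
  rw [pow_zero, one_mul] at h2
  refine hq_mono (dif_hq hA a ha) ?_ ?_ <;> (unfold LH; linarith)

lemma add_LH {H Q : ℕ} (hH : 2 ≤ H) (hQ : 1 ≤ Q) {A : Finset ℚ}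
    (hA : ∀ a ∈ A, ∃ x : ℚ, |x.num| ≤ (H : ℤ) ∧ x.den ≤ Q ∧ a = x ^ 2) :
    ∀ a ∈ A, ∀ s ∈ dif A, hq (LH H Q) (LH H Q) (a + s) := by
  intro a ha s hs
  have h0 : (0 : ℝ) ≤ (H : ℝ) ^ 2 * (Q : ℝ) ^ 6 := by positivity
  have h1 := mono_LH hH hQ 2 4 (by norm_num) (by norm_num)
  have h2 := mono_LH hH hQ 0 6 (by norm_num) (by norm_num)
  rw [pow_zero, one_mul] at h2
  refine hq_mono (hq_add (sq_hq hA a ha) (dif_hq hA s hs)) ?_ ?_
  · unfold LH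
    have e : (H : ℝ) ^ 2 * (Q : ℝ) ^ 4 + 2 * ((H : ℝ) ^ 2 * (Q : ℝ) ^ 2) * (Q : ℝ) ^ 2
        = 3 * ((H : ℝ) ^ 2 * (Q : ℝ) ^ 4) := by ring
    rw [e]
    linarith
  · unfold LH
    have : (Q : ℝ) ^ 2 * (Q : ℝ) ^ 4 = (Q : ℝ) ^ 6 := by ring
    linarith

/-- Few differences with many representations. -/
theorem lev_bound (H Q : ℕ) (hH : 2 ≤ H) (hQ : 1 ≤ Q) (A : Finset ℚ)
    (hA : ∀ a ∈ A, ∃ x : ℚ, |x.num| ≤ (H : ℤ) ∧ x.den ≤ Q ∧ a = x ^ 2) (D : Finset ℚ) (hD : D ⊆ dif A)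
    (τ : ℝ) (hτ0 : 0 ≤ τ) (hτ : ∀ s ∈ D, τ ≤ (rep A s : ℝ)) :
    τ ^ 2 ≤ vv H Q * (A.card : ℝ) ∨ τ ^ 2 * (D.card : ℝ) ≤ vv H Q * (A.card : ℝ) ^ 2 := by
  have hv1 := vv_one H Q hH hQ
  by_cases hX0 : D.card = 0
  · right
    rw [hX0]
    push_cast
    have : 0 ≤ vv H Q * (A.card : ℝ) ^ 2 := by positivity
    linarith
  have hX1 : (1 : ℝ) ≤ (D.card : ℝ) := by exact_mod_cast Nat.one_le_iff_ne_zero.mpr hX0
  have hn1 : (1 : ℝ) ≤ (A.card : ℝ) := by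
    have h1 := Finset.card_le_card hD
    have h2 := card_dif A
    have h3 : A.card ≠ 0 := by
      intro h
      rw [h] at h2
      simp at h2
      rw [h2] at hD
      rw [Finset.subset_empty.mp hD] at hX0
      simp at hX0
    exact_mod_cast Nat.one_le_iff_ne_zero.mpr h3
  obtain ⟨n, hn⟩ : ∃ n : ℝ, n = (A.card : ℝ) := ⟨_, rfl⟩
  obtain ⟨X, hX⟩ : ∃ X : ℝ, X = (D.card : ℝ) := ⟨_, rfl⟩
  rw [← hn] at hn1 ⊢
  rw [← hX] at hX1 ⊢
  obtain ⟨u, hu⟩ : ∃ u : ℝ, u = Real.sqrt (X * n) := ⟨_, rfl⟩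
  have hXn : 1 ≤ X * n := by nlinarith
  have hu2 : u ^ 2 = X * n := by rw [hu]; exact Real.sq_sqrt (by linarith)
  have hu1 : 1 ≤ u := by rw [hu]; exact Real.one_le_sqrt.mpr hXn
  obtain ⟨t, ht⟩ : ∃ t : ℝ, t = Real.sqrt u := ⟨_, rfl⟩
  have ht2 : t ^ 2 = u := by rw [ht]; exact Real.sq_sqrt (by linarith)
  have ht1 : 1 ≤ t := by rw [ht]; exact Real.one_le_sqrt.mpr hu1
  have ht0 : 0 < t := by linarith
  have hp := pairs_le (LH H Q) t (LH_one H Q hH hQ) ht1 A (sq_is hA) (sq_LH hH hQ hA)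
    D A (fun s : ℚ => s) (fun a : ℚ => -a)
    (fun x hx => dif_LH hH hQ hA x (hD hx))
    (fun x hx => hq_neg (sq_LH hH hQ hA x hx))
  rw [col_inj D _ (fun _ _ h => h), col_inj A _ (fun _ _ h => neg_injective h), ← hn, ← hX] at hp
  change _ ≤ 2 * (2500 * Real.log (MM H Q)) ^ 2 * _ + _ at hp
  have hcount : τ * X ≤ (((D ×ˢ A).filter (fun z : ℚ × ℚ => z.1 - -z.2 ∈ A)).card : ℝ) := by
    have h1 : ((D ×ˢ A).filter (fun z : ℚ × ℚ => z.1 - -z.2 ∈ A)).card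
        = ∑ s ∈ D, rep A s := by
      rw [Finset.card_eq_sum_card_fiberwise (f := fun z : ℚ × ℚ => z.1) (t := D)]
      · refine Finset.sum_congr rfl fun s hs => ?_
        rw [rep_eq]
        refine Finset.card_bij (fun z _ => z.2) ?_ ?_ ?_
        · intro z hz
          rw [Finset.mem_filter, Finset.mem_filter, Finset.mem_product] at hz
          obtain ⟨⟨⟨h1, h2⟩, h3⟩, h4⟩ := hz
          have h4' : z.1 = s := h4
          refine Finset.mem_filter.mpr ⟨h2, ?_⟩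
          have e : z.2 + s = z.1 - -z.2 := by rw [h4']; ring
          rw [e]; exact h3
        · intro z hz w hw h
          rw [Finset.mem_filter] at hz hw
          have h4 : z.1 = s := hz.2
          have h5 : w.1 = s := hw.2
          exact Prod.ext (h4.trans h5.symm) h
        · intro b hb
          rw [Finset.mem_filter] at hb
          refine ⟨(s, b), ?_, rfl⟩
          rw [Finset.mem_filter, Finset.mem_filter, Finset.mem_product]
          refine ⟨⟨⟨hs, hb.1⟩, ?_⟩, rfl⟩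
          have e : s - -b = b + s := by ring
          show s - -b ∈ A
          rw [e]; exact hb.2
      · intro z hz
        have hz' := Finset.mem_coe.mp hz
        rw [Finset.mem_filter, Finset.mem_product] at hz'
        exact Finset.mem_coe.mpr hz'.1.1
    rw [h1]
    push_cast
    rw [hX, mul_comm, ← nsmul_eq_mul, ← Finset.sum_const]
    exact Finset.sum_le_sum fun s hs => hτ s hs
  obtain ⟨w2, hw2⟩ : ∃ w2 : ℝ, w2 = (2500 * Real.log (MM H Q)) ^ 2 := ⟨_, rfl⟩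
  have hvw : vv H Q = 10 * w2 := by rw [hw2]; rfl
  have hw1 : 2 ≤ w2 := by
    rw [hw2]
    have := log_MM H Q hH hQ
    nlinarith
  rw [← hw2] at hp
  have e1 : (t * X + X ^ 2 / t) * (t * n + n ^ 2 / t)
      = 2 * (u * (X * n)) + X * n ^ 2 + X ^ 2 * n := by
    have e2 : (t * X + X ^ 2 / t) * (t * n + n ^ 2 / t)
        = t ^ 2 * (X * n) + X * n ^ 2 + X ^ 2 * n + (X * n) ^ 2 / t ^ 2 := by
      field_simp
      ring
    rw [e2, ht2]
    have e3 : (X * n) ^ 2 / u = u * (X * n) := by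
      rw [div_eq_iff (by linarith)]
      rw [← hu2]; ring
    rw [e3]; ring
  rw [e1] at hp
  have h2u : 2 * u ≤ X + n := by
    apply le_of_sq_le_sq _ (by linarith)
    have : (2 * u) ^ 2 = 4 * (X * n) := by rw [← hu2]; ring
    rw [this]
    nlinarith [sq_nonneg (X - n)]
  have h3 : 2 * (u * (X * n)) ≤ X * n ^ 2 + X ^ 2 * n := by
    have : 2 * u * (X * n) ≤ (X + n) * (X * n) :=
      mul_le_mul_of_nonneg_right h2u (by linarith)
    linarith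
  have h4 : (τ * X) ^ 2 ≤ 5 * w2 * (X * n ^ 2 + X ^ 2 * n) := by
    have h5 : (τ * X) ^ 2 ≤ (((D ×ˢ A).filter (fun z : ℚ × ℚ => z.1 - -z.2 ∈ A)).card : ℝ) ^ 2 :=
      pow_le_pow_left₀ (by positivity) hcount 2
    refine h5.trans (hp.trans ?_)
    have h6 : 2 * w2 * (2 * (u * (X * n)) + X * n ^ 2 + X ^ 2 * n)
        ≤ 2 * w2 * (2 * (X * n ^ 2 + X ^ 2 * n)) :=
      mul_le_mul_of_nonneg_left (by linarith) (by linarith)
    have h7 : 2 * (X * n) ≤ w2 * (X * n ^ 2 + X ^ 2 * n) := by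
      have h8 : X * n ≤ X * n ^ 2 := by nlinarith
      have h9 : 0 ≤ X ^ 2 * n := by positivity
      have h10 : 2 * (X * n) ≤ w2 * (X * n) := mul_le_mul_of_nonneg_right hw1 (by linarith)
      have h11 : w2 * (X * n) ≤ w2 * (X * n ^ 2 + X ^ 2 * n) :=
        mul_le_mul_of_nonneg_left (by linarith) (by linarith)
      linarith
    linarith
  rw [hvw]
  have hX0' : 0 < X := by linarith
  rcases le_total (X * n ^ 2) (X ^ 2 * n) with h | h
  · left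
    have h5 : X ^ 2 * τ ^ 2 ≤ X ^ 2 * (10 * w2 * n) := by
      have : 5 * w2 * (X * n ^ 2 + X ^ 2 * n) ≤ 5 * w2 * (2 * (X ^ 2 * n)) :=
        mul_le_mul_of_nonneg_left (by linarith) (by linarith)
      nlinarith
    exact le_of_mul_le_mul_left h5 (by positivity)
  · right
    have h5 : X * (τ ^ 2 * X) ≤ X * (10 * w2 * n ^ 2) := by
      have : 5 * w2 * (X * n ^ 2 + X ^ 2 * n) ≤ 5 * w2 * (2 * (X * n ^ 2)) :=
        mul_le_mul_of_nonneg_left (by linarith) (by linarith)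
      nlinarith
    exact le_of_mul_le_mul_left h5 hX0'

/-- Energy between `A` and a set of differences. -/
theorem mix_bound (H Q : ℕ) (hH : 2 ≤ H) (hQ : 1 ≤ Q) (A : Finset ℚ)
    (hA : ∀ a ∈ A, ∃ x : ℚ, |x.num| ≤ (H : ℤ) ∧ x.den ≤ Q ∧ a = x ^ 2) (D : Finset ℚ) (hD : D ⊆ dif A) :
    (col (A ×ˢ D) (fun z : ℚ × ℚ => z.1 + z.2) : ℝ) ^ 2 ≤
      2 * vv H Q ^ 2 * ((A.card : ℝ) ^ 2 * (D.card : ℝ) ^ 3) := by
  have hv1 := vv_one H Q hH hQ
  have hrec := recur (LH H Q) (LH_one H Q hH hQ) A (sq_is hA) (sq_LH hH hQ hA)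
    (A ×ˢ D) D (fun z : ℚ × ℚ => z.1 + z.2) (fun b => b)
    (by
      intro x hx
      rw [Finset.mem_product] at hx
      exact add_LH hH hQ hA _ hx.1 _ (hD hx.2))
    (fun x hx => dif_LH hH hQ hA x (hD hx))
    (by
      unfold col
      refine Finset.card_le_card_of_injOn (fun z => (z.1, z.2.2)) ?_ ?_
      · intro z hz
        have hz' := Finset.mem_coe.mp hz
        rw [Finset.mem_filter, Finset.mem_product, Finset.mem_product, Finset.mem_product] at hz'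
        obtain ⟨⟨h1, h2⟩, h3⟩ := hz'
        have h3' : z.1.1 + z.1.2 = z.2.1 + z.2.2 := h3
        refine Finset.mem_coe.mpr (Finset.mem_filter.mpr ⟨Finset.mem_product.mpr
          ⟨Finset.mem_product.mpr h1, h2.2⟩, ?_⟩)
        have e : z.1.1 + z.1.2 - z.2.2 = z.2.1 := by rw [h3']; ring
        show z.1.1 + z.1.2 - z.2.2 ∈ A
        rw [e]; exact h2.1
      · intro z hz w hw h
        have hz' := Finset.mem_coe.mp hz
        have hw' := Finset.mem_coe.mp hw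
        rw [Finset.mem_filter] at hz' hw'
        have h3 : z.1.1 + z.1.2 = z.2.1 + z.2.2 := hz'.2
        have h4 : w.1.1 + w.1.2 = w.2.1 + w.2.2 := hw'.2
        simp only [Prod.mk.injEq] at h
        obtain ⟨h1, h2⟩ := h
        have e5 : z.2.1 = w.2.1 := by
          rw [h1] at h3
          rw [h3, h2] at h4
          linarith
        exact Prod.ext h1 (Prod.ext e5 h2))
  rw [col_inj D _ (fun _ _ h => h)] at hrec
  have eM : 2 * LH H Q ^ 2 = MM H Q := rfl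
  rw [eM] at hrec
  obtain ⟨w2, hw2⟩ : ∃ w2 : ℝ, w2 = (2500 * Real.log (MM H Q)) ^ 2 := ⟨_, rfl⟩
  have hvw : vv H Q = 10 * w2 := by rw [hw2]; rfl
  have hw1 : 2 ≤ w2 := by
    rw [hw2]
    have := log_MM H Q hH hQ
    nlinarith
  rw [← hw2] at hrec
  rw [hvw]
  obtain ⟨n, hn⟩ : ∃ n : ℝ, n = (A.card : ℝ) := ⟨_, rfl⟩
  obtain ⟨X, hX⟩ : ∃ X : ℝ, X = (D.card : ℝ) := ⟨_, rfl⟩
  obtain ⟨E, hE⟩ : ∃ E : ℝ, E = (col (A ×ˢ D) (fun z : ℚ × ℚ => z.1 + z.2) : ℝ) := ⟨_, rfl⟩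
  have hn0 : 0 ≤ n := by rw [hn]; exact Nat.cast_nonneg _
  have hX0 : 0 ≤ X := by rw [hX]; exact Nat.cast_nonneg _
  have hE0 : 0 ≤ E := by rw [hE]; exact Nat.cast_nonneg _
  have hcard : ((A ×ˢ D).card : ℝ) = n * X := by
    rw [Finset.card_product, hn, hX]; push_cast; ring
  have hXn : X ≤ n ^ 2 := by
    rw [hX, hn]
    exact_mod_cast (Finset.card_le_card hD).trans (card_dif A)
  rw [hcard, ← hE, ← hX] at hrec
  rw [← hE, ← hn, ← hX]
  rcases hrec with h | h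
  · calc E ^ 2 ≤ 8 * w2 * ((n * X) ^ 2 * X) := h
      _ = 8 * w2 * (n ^ 2 * X ^ 3) := by ring
      _ ≤ 2 * (10 * w2) ^ 2 * (n ^ 2 * X ^ 3) := by
          apply mul_le_mul_of_nonneg_right _ (by positivity)
          nlinarith
  · calc E ^ 2 ≤ (12 * w2 * X ^ 2) ^ 2 := pow_le_pow_left₀ hE0 h 2
      _ = 144 * w2 ^ 2 * (X * X ^ 3) := by ring
      _ ≤ 144 * w2 ^ 2 * (n ^ 2 * X ^ 3) := by
          apply mul_le_mul_of_nonneg_left _ (by positivity)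
          exact mul_le_mul_of_nonneg_right hXn (by positivity)
      _ ≤ 2 * (10 * w2) ^ 2 * (n ^ 2 * X ^ 3) := by
          apply mul_le_mul_of_nonneg_right _ (by positivity)
          nlinarith

end H45SR
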