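import Pool.Agent.H45.SR.Rec
import Pool.Agent.H45.SR.Cn

set_option autoImplicit false

namespace H45SR

open Finset H45SQ

lemma amgm3 (p q d : ℝ) (hp : 0 < p) (hq : 0 < q) (hd : 0 < d) :
    3 * d ^ 2 ≤ p * q + d ^ 3 / p + d ^ 3 / q := by
  obtain ⟨s, hs0, hs⟩ : ∃ s : ℝ, 0 < s ∧ s ^ 2 = p * q :=
    ⟨Real.sqrt (p * q), Real.sqrt_pos.mpr (by positivity), Real.sq_sqrt (by positivity)⟩
  have h1 : 2 * s ≤ p + q := by
    apply le_of_sq_le_sq _ (by positivity)
    nlinarith [sq_nonneg (p - q)]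
  have h2 : p * q + d ^ 3 / p + d ^ 3 / q = s ^ 2 + d ^ 3 * (p + q) / s ^ 2 := by
    rw [hs]; field_simp; ring
  rw [h2]
  have h3 : d ^ 3 * (2 * s) / s ^ 2 ≤ d ^ 3 * (p + q) / s ^ 2 := by
    apply div_le_div_of_nonneg_right _ (by positivity)
    exact mul_le_mul_of_nonneg_left h1 (by positivity)
  have h4 : s ^ 2 + d ^ 3 * (2 * s) / s ^ 2 - 3 * d ^ 2 = (s - d) ^ 2 * (s + 2 * d) / s := by
    field_simp; ring
  have h5 : 0 ≤ (s - d) ^ 2 * (s + 2 * d) / s := by positivity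
  linarith

/-- Number of neighbours. -/
def dg (A D : Finset ℚ) (a : ℚ) : ℕ := (A.filter (fun c => a - c ∈ D)).card

/-- Blakley-Roy inequality for walks of length three. -/
lemma walks3 (A D : Finset ℚ) (hD : ∀ s ∈ D, -s ∈ D) :
    (∑ a ∈ A, (dg A D a : ℝ)) ^ 3 ≤
      (A.card : ℝ) ^ 2 * ∑ a ∈ A, ∑ b ∈ A.filter (fun c => a - c ∈ D),
        (dg A D a : ℝ) * (dg A D b : ℝ) := by
  obtain ⟨m, hm⟩ : ∃ m : ℝ, m = ∑ a ∈ A, (dg A D a : ℝ) := ⟨_, rfl⟩
  obtain ⟨n, hn⟩ : ∃ n : ℝ, n = (A.card : ℝ) := ⟨_, rfl⟩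
  obtain ⟨W, hW⟩ : ∃ W : ℝ, W = ∑ a ∈ A, ∑ b ∈ A.filter (fun c => a - c ∈ D),
        (dg A D a : ℝ) * (dg A D b : ℝ) := ⟨_, rfl⟩
  rw [← hm, ← hn, ← hW]
  have hW0 : 0 ≤ W := by
    rw [hW]
    exact Finset.sum_nonneg fun _ _ => Finset.sum_nonneg fun _ _ => by positivity
  have hm0 : 0 ≤ m := by
    rw [hm]; exact Finset.sum_nonneg fun _ _ => Nat.cast_nonneg _
  rcases hm0.eq_or_lt with h0 | h0
  · rw [← h0]
    have : 0 ≤ n ^ 2 * W := by positivity
    simpa using this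
  have hn0 : 0 < n := by
    rw [hn]
    have : A.Nonempty := by
      by_contra hne
      rw [Finset.not_nonempty_iff_eq_empty] at hne
      rw [hm, hne] at h0
      simp at h0
    exact_mod_cast this.card_pos
  obtain ⟨d, hd⟩ : ∃ d : ℝ, d = m / n := ⟨_, rfl⟩
  have hd0 : 0 < d := by rw [hd]; positivity
  have key : ∀ a ∈ A, ∀ b ∈ A.filter (fun c => a - c ∈ D),
      3 * d ^ 2 ≤ (dg A D a : ℝ) * (dg A D b : ℝ) + d ^ 3 / (dg A D a : ℝ)
        + d ^ 3 / (dg A D b : ℝ) := by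
    intro a ha b hb
    have hb' := Finset.mem_filter.mp hb
    have h1 : (0 : ℝ) < (dg A D a : ℝ) := by
      have : 0 < dg A D a := Finset.card_pos.mpr ⟨b, hb⟩
      exact_mod_cast this
    have h2 : (0 : ℝ) < (dg A D b : ℝ) := by
      have : 0 < dg A D b := Finset.card_pos.mpr ⟨a, Finset.mem_filter.mpr ⟨ha, by
        have := hD _ hb'.2
        rwa [neg_sub] at this⟩⟩
      exact_mod_cast this
    exact amgm3 _ _ _ h1 h2 hd0
  have hsum := Finset.sum_le_sum fun a ha => Finset.sum_le_sum fun b hb => key a ha b hb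
  have e1 : ∑ a ∈ A, ∑ _b ∈ A.filter (fun c => a - c ∈ D), 3 * d ^ 2 = 3 * d ^ 2 * m := by
    rw [hm, Finset.mul_sum]
    refine Finset.sum_congr rfl fun a _ => ?_
    rw [Finset.sum_const, nsmul_eq_mul]
    unfold dg
    ring
  have e2 : ∑ a ∈ A, ∑ _b ∈ A.filter (fun c => a - c ∈ D), d ^ 3 / (dg A D a : ℝ)
      ≤ n * d ^ 3 := by
    rw [hn, ← nsmul_eq_mul, ← Finset.sum_const]
    refine Finset.sum_le_sum fun a _ => ?_
    rw [Finset.sum_const, nsmul_eq_mul]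
    change (dg A D a : ℝ) * (d ^ 3 / (dg A D a : ℝ)) ≤ d ^ 3
    rcases (Nat.cast_nonneg (α := ℝ) (dg A D a)).eq_or_lt with h | h
    · rw [← h]; simp; positivity
    · rw [mul_div_cancel₀ _ h.ne']
  have e3 : ∑ a ∈ A, ∑ b ∈ A.filter (fun c => a - c ∈ D), d ^ 3 / (dg A D b : ℝ)
      = ∑ a ∈ A, ∑ _b ∈ A.filter (fun c => a - c ∈ D), d ^ 3 / (dg A D a : ℝ) := by
    rw [Finset.sum_comm' (t' := A) (s' := fun b => A.filter (fun c => b - c ∈ D))]
    intro x y
    simp only [Finset.mem_filter]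
    constructor
    · rintro ⟨h1, h2, h3⟩
      refine ⟨⟨h1, ?_⟩, h2⟩
      have := hD _ h3
      rwa [neg_sub] at this
    · rintro ⟨⟨h1, h3⟩, h2⟩
      refine ⟨h1, h2, ?_⟩
      have := hD _ h3
      rwa [neg_sub] at this
  rw [e1] at hsum
  simp only [Finset.sum_add_distrib] at hsum
  rw [e3, ← hW] at hsum
  have h6 : n * d ^ 3 = d ^ 2 * m := by rw [hd]; field_simp
  have h7 : d ^ 2 * m ≤ W := by linarith
  have h8 : m ^ 3 = n ^ 2 * (d ^ 2 * m) := by rw [hd]; field_simp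
  rw [h8]
  exact mul_le_mul_of_nonneg_left h7 (by positivity)

/-- `1` if `a + u ∈ A`. -/
def II (A : Finset ℚ) (a u : ℚ) : ℝ := if a + u ∈ A then 1 else 0

lemma rep_sum (A : Finset ℚ) (a b : ℚ) (hb : b ∈ A) :
    (rep A (a - b) : ℝ) = ∑ u ∈ dif A, II A a u * II A b u := by
  have h1 : rep A (a - b) = ((dif A).filter (fun u => a + u ∈ A ∧ b + u ∈ A)).card := by
    rw [rep_eq]
    refine Finset.card_bij (fun c _ => c - b) ?_ ?_ ?_
    · intro c hc
      rw [Finset.mem_filter] at hc ⊢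
      refine ⟨Finset.mem_image.mpr ⟨(c, b), Finset.mem_product.mpr ⟨hc.1, hb⟩, rfl⟩, ?_, ?_⟩
      · have : a + (c - b) = c + (a - b) := by ring
        rw [this]; exact hc.2
      · have : b + (c - b) = c := by ring
        rw [this]; exact hc.1
    · intro c _ c' _ h
      linarith
    · intro u hu
      rw [Finset.mem_filter] at hu
      refine ⟨b + u, ?_, by ring⟩
      rw [Finset.mem_filter]
      refine ⟨hu.2.2, ?_⟩
      have : b + u + (a - b) = a + u := by ring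
      rw [this]; exact hu.2.1
  rw [h1, Finset.card_filter]
  push_cast
  refine Finset.sum_congr rfl fun u _ => ?_
  unfold II
  by_cases h2 : a + u ∈ A <;> by_cases h3 : b + u ∈ A <;> simp [h2, h3]

/-- Cherries weighted with the number of representations of the difference of their ends. -/
noncomputable def TT (A D : Finset ℚ) : ℝ :=
  ∑ c ∈ A, ∑ a ∈ A.filter (fun a => a - c ∈ D), ∑ b ∈ A.filter (fun b => b - c ∈ D),
    (rep A (a - b) : ℝ)

lemma TT_low (A D : Finset ℚ) (τ : ℝ) (hτ0 : 0 ≤ τ) (hτ : ∀ s ∈ D, τ ≤ (rep A s : ℝ)) :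
    τ * ∑ a ∈ A, ∑ b ∈ A.filter (fun c => a - c ∈ D), (dg A D a : ℝ) * (dg A D b : ℝ) ≤
      (A.card : ℝ) * TT A D := by
  have e1 : TT A D = ∑ u ∈ dif A, ∑ c ∈ A, (∑ a ∈ A.filter (fun a => a - c ∈ D), II A a u) ^ 2 := by
    unfold TT
    rw [Finset.sum_comm (s := dif A)]
    refine Finset.sum_congr rfl fun c _ => ?_
    have : ∀ u ∈ dif A, (∑ a ∈ A.filter (fun a => a - c ∈ D), II A a u) ^ 2
        = ∑ a ∈ A.filter (fun a => a - c ∈ D), ∑ b ∈ A.filter (fun b => b - c ∈ D),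
          II A a u * II A b u := by
      intro u _
      rw [pow_two, Finset.sum_mul_sum]
    rw [Finset.sum_congr rfl this]
    symm
    rw [Finset.sum_comm]
    refine Finset.sum_congr rfl fun a _ => ?_
    rw [Finset.sum_comm]
    refine Finset.sum_congr rfl fun b hb => ?_
    exact (rep_sum A a b (Finset.mem_filter.mp hb).1).symm
  have e2 : ∀ u, ∑ c ∈ A, ∑ a ∈ A.filter (fun a => a - c ∈ D), II A a u
      = ∑ a ∈ A, (dg A D a : ℝ) * II A a u := by
    intro u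
    rw [Finset.sum_comm' (t' := A) (s' := fun a => A.filter (fun c => a - c ∈ D))]
    · refine Finset.sum_congr rfl fun a _ => ?_
      rw [Finset.sum_const, nsmul_eq_mul]
      rfl
    · intro x y
      simp only [Finset.mem_filter]
      tauto
  have e3 : ∑ u ∈ dif A, (∑ a ∈ A, (dg A D a : ℝ) * II A a u) ^ 2
      = ∑ a ∈ A, ∑ b ∈ A, (dg A D a : ℝ) * (dg A D b : ℝ) * (rep A (a - b) : ℝ) := by
    have : ∀ u ∈ dif A, (∑ a ∈ A, (dg A D a : ℝ) * II A a u) ^ 2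
        = ∑ a ∈ A, ∑ b ∈ A, (dg A D a : ℝ) * (dg A D b : ℝ) * (II A a u * II A b u) := by
      intro u _
      rw [pow_two, Finset.sum_mul_sum]
      refine Finset.sum_congr rfl fun a _ => Finset.sum_congr rfl fun b _ => ?_
      ring
    rw [Finset.sum_congr rfl this, Finset.sum_comm]
    refine Finset.sum_congr rfl fun a _ => ?_
    rw [Finset.sum_comm]
    refine Finset.sum_congr rfl fun b hb => ?_
    rw [← Finset.mul_sum, ← rep_sum A a b hb]
  have e4 : τ * ∑ a ∈ A, ∑ b ∈ A.filter (fun c => a - c ∈ D), (dg A D a : ℝ) * (dg A D b : ℝ)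
      ≤ ∑ a ∈ A, ∑ b ∈ A, (dg A D a : ℝ) * (dg A D b : ℝ) * (rep A (a - b) : ℝ) := by
    rw [Finset.mul_sum]
    refine Finset.sum_le_sum fun a _ => ?_
    rw [Finset.mul_sum, Finset.sum_filter]
    refine Finset.sum_le_sum fun b _ => ?_
    split_ifs with h
    · have h1 := hτ _ h
      have h2 : 0 ≤ (dg A D a : ℝ) * (dg A D b : ℝ) := by positivity
      nlinarith
    · positivity
  refine e4.trans ?_
  rw [← e3, e1, Finset.mul_sum]
  refine Finset.sum_le_sum fun u _ => ?_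
  rw [← e2 u]
  exact sq_sum_le_card_mul_sum_sq

end H45SR
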