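import Pool.Agent.H45.SR.Lv
import Pool.Agent.H45.SR.Md

/-! Header (helper45): port of `card_sq_le_H`, `LL_le`, `vv_le` of `Pool/Agent/H45/SQ/Sv.lean` to
rationals of numerator at most `H` and denominator at most `Q`. (1) `A` is a subset of the image of
`range (H+1) ×ˢ Icc 1 Q` under `(m, d) ↦ ((m : ℚ) / d) ^ 2`. (2) `(H+1) Q ≤ 2HQ`, hence
`Nat.log 2 |A| * log 2 ≤ log (2HQ)`, and `2 log 2 ≤ log (2HQ)`. (3) `18 H^4 Q^12 ≤ (2HQ)^12`. -/

set_option autoImplicit false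

namespace H45SR

open Finset H45SQ

lemma card_sq_le_H {H Q : ℕ} {A : Finset ℚ}
    (hA : ∀ a ∈ A, ∃ x : ℚ, |x.num| ≤ (H : ℤ) ∧ x.den ≤ Q ∧ a = x ^ 2) :
    A.card ≤ (H + 1) * Q := by
  have h : A ⊆ ((Finset.range (H + 1)) ×ˢ (Finset.Icc 1 Q)).image
      (fun z : ℕ × ℕ => ((z.1 : ℚ) / (z.2 : ℚ)) ^ 2) := by
    intro a ha
    obtain ⟨x, hx, hd, rfl⟩ := hA a ha
    refine Finset.mem_image.mpr ⟨(x.num.natAbs, x.den), ?_, ?_⟩
    · refine Finset.mem_product.mpr ⟨?_, ?_⟩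
      · rw [Finset.mem_range]
        have : (x.num.natAbs : ℤ) ≤ H := by rw [Int.natCast_natAbs]; exact hx
        omega
      · rw [Finset.mem_Icc]
        exact ⟨x.den_pos, hd⟩
    · have e1 : ((x.num.natAbs : ℕ) : ℚ) ^ 2 = (x.num : ℚ) ^ 2 := by
        have h2 : ((x.num.natAbs : ℕ) : ℤ) ^ 2 = x.num ^ 2 := Int.natAbs_sq x.num
        have h3 := congrArg (fun t : ℤ => (t : ℚ)) h2
        simp only [Int.cast_pow, Int.cast_natCast] at h3
        exact h3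
      show (((x.num.natAbs : ℕ) : ℚ) / (x.den : ℚ)) ^ 2 = x ^ 2
      rw [div_pow, e1, ← div_pow, Rat.num_div_den]
  calc A.card ≤ _ := Finset.card_le_card h
    _ ≤ ((Finset.range (H + 1)) ×ˢ (Finset.Icc 1 Q)).card := Finset.card_image_le
    _ = (H + 1) * Q := by
        rw [Finset.card_product, Finset.card_range, Nat.card_Icc, Nat.add_sub_cancel]

lemma LL_le (H Q : ℕ) (hH : 2 ≤ H) (hQ : 1 ≤ Q) (A : Finset ℚ)
    (hA : ∀ a ∈ A, ∃ x : ℚ, |x.num| ≤ (H : ℤ) ∧ x.den ≤ Q ∧ a = x ^ 2) :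
    (LL A : ℝ) ≤ 3 * Real.log (2 * ((H : ℝ) * Q)) := by
  have hHr : (2 : ℝ) ≤ H := by exact_mod_cast hH
  have hQr : (1 : ℝ) ≤ Q := by exact_mod_cast hQ
  have hHQ : (2 : ℝ) ≤ (H : ℝ) * Q := by nlinarith
  have hl2 := Real.log_two_gt_d9
  have hl4 : 2 * Real.log 2 ≤ Real.log (2 * ((H : ℝ) * Q)) := by
    have : Real.log ((2 : ℝ) ^ 2) ≤ Real.log (2 * ((H : ℝ) * Q)) :=
      Real.log_le_log (by norm_num) (by linarith)
    rw [Real.log_pow] at this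
    push_cast at this
    exact this
  have h1 : (2 : ℕ) ^ (Nat.log 2 A.card) ≤ 2 * (H * Q) := by
    by_cases h0 : A.card = 0
    · rw [h0]
      have : 1 ≤ 2 * (H * Q) := by nlinarith
      simpa using this
    · refine (Nat.pow_log_le_self 2 h0).trans ?_
      have := card_sq_le_H hA
      nlinarith
  have h2 : (Nat.log 2 A.card : ℝ) * Real.log 2 ≤ Real.log (2 * ((H : ℝ) * Q)) := by
    rw [← Real.log_pow]
    apply Real.log_le_log (by positivity)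
    exact_mod_cast h1
  have h3 : (LL A : ℝ) = (Nat.log 2 A.card : ℝ) + 1 := by unfold LL; push_cast; ring
  rw [h3]
  have h4 : (0 : ℝ) ≤ (Nat.log 2 A.card : ℝ) := Nat.cast_nonneg _
  nlinarith

lemma vv_le (H Q : ℕ) (hH : 2 ≤ H) (hQ : 1 ≤ Q) :
    vv H Q ≤ 9000000000 * Real.log (2 * ((H : ℝ) * Q)) ^ 2 := by
  have hHr : (2 : ℝ) ≤ H := by exact_mod_cast hH
  have hQr : (1 : ℝ) ≤ Q := by exact_mod_cast hQ
  have h0 := log_MM H Q hH hQ
  have h1 : Real.log (MM H Q) ≤ 12 * Real.log (2 * ((H : ℝ) * Q)) := by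
    have : Real.log (MM H Q) ≤ Real.log ((2 * ((H : ℝ) * Q)) ^ 12) := by
      apply Real.log_le_log (by have := MM_two H Q hH hQ; linarith)
      have h2 : (0 : ℝ) ≤ (Q : ℝ) ^ 12 := by positivity
      have h3 : (H : ℝ) ^ 4 ≤ (H : ℝ) ^ 12 := pow_le_pow_right₀ (by linarith) (by norm_num)
      have h4 : (0 : ℝ) ≤ (H : ℝ) ^ 12 * (Q : ℝ) ^ 12 := by positivity
      have h5 := mul_le_mul_of_nonneg_right h3 h2
      have e1 : MM H Q = 18 * ((H : ℝ) ^ 4 * (Q : ℝ) ^ 12) := by unfold MM LH; ring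
      have e2 : (2 * ((H : ℝ) * Q)) ^ 12 = 4096 * ((H : ℝ) ^ 12 * (Q : ℝ) ^ 12) := by ring
      rw [e1, e2]
      linarith
    rw [Real.log_pow] at this
    push_cast at this
    exact this
  unfold vv
  have h2 : (2500 * Real.log (MM H Q)) ^ 2 ≤ (2500 * (12 * Real.log (2 * ((H : ℝ) * Q)))) ^ 2 :=
    pow_le_pow_left₀ (by linarith) (by linarith) 2
  nlinarith

end H45SR
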