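import Pool.Agent.H45.SR.Gr

set_option autoImplicit false

namespace H45SR

open Finset H45SQ

/-- Level of `s`. -/
def lv (A : Finset ℚ) (s : ℚ) : ℕ := Nat.log 2 (rep A s)

/-- Level sets of the representation function. -/
def Dl (A : Finset ℚ) (j : ℕ) : Finset ℚ := (dif A).filter (fun s => lv A s = j)

/-- Number of levels. -/
def LL (A : Finset ℚ) : ℕ := Nat.log 2 A.card + 1

lemma rep_pos {A : Finset ℚ} {s : ℚ} (hs : s ∈ dif A) : 1 ≤ rep A s := by
  obtain ⟨p, hp, h⟩ := Finset.mem_image.mp hs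
  exact Finset.card_pos.mpr ⟨p, Finset.mem_filter.mpr ⟨hp, h⟩⟩

lemma lv_lt (A : Finset ℚ) (s : ℚ) : lv A s < LL A := by
  unfold lv LL
  exact Nat.lt_succ_of_le (Nat.log_mono_right (rep_le A s))

lemma Dl_sub (A : Finset ℚ) (j : ℕ) : Dl A j ⊆ dif A := Finset.filter_subset _ _

lemma rep_ge {A : Finset ℚ} {j : ℕ} {s : ℚ} (hs : s ∈ Dl A j) : 2 ^ j ≤ rep A s := by
  have h := Finset.mem_filter.mp hs
  rw [← h.2]
  exact Nat.pow_log_le_self 2 (by have := rep_pos h.1; omega)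

lemma rep_lt {A : Finset ℚ} {j : ℕ} {s : ℚ} (hs : s ∈ Dl A j) : rep A s < 2 ^ (j + 1) := by
  have h := Finset.mem_filter.mp hs
  rw [← h.2]
  exact Nat.lt_pow_succ_log_self (by norm_num) _

lemma rep_neg (A : Finset ℚ) (s : ℚ) : rep A (-s) = rep A s := by
  unfold rep
  refine Finset.card_bij (fun p _ => (p.2, p.1)) ?_ ?_ ?_
  · intro p hp
    rw [Finset.mem_filter, Finset.mem_product] at hp ⊢
    refine ⟨⟨hp.1.2, hp.1.1⟩, ?_⟩
    have := hp.2
    simp only
    linarith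
  · intro p _ q _ h
    simp only [Prod.mk.injEq] at h
    exact Prod.ext h.2 h.1
  · intro p hp
    rw [Finset.mem_filter, Finset.mem_product] at hp
    refine ⟨(p.2, p.1), ?_, rfl⟩
    rw [Finset.mem_filter, Finset.mem_product]
    refine ⟨⟨hp.1.2, hp.1.1⟩, ?_⟩
    have := hp.2
    simp only
    linarith

lemma dif_neg {A : Finset ℚ} {s : ℚ} (hs : s ∈ dif A) : -s ∈ dif A := by
  obtain ⟨p, hp, h⟩ := Finset.mem_image.mp hs
  rw [Finset.mem_product] at hp
  refine Finset.mem_image.mpr ⟨(p.2, p.1), Finset.mem_product.mpr ⟨hp.2, hp.1⟩, ?_⟩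
  simp only
  linarith

lemma Dl_neg (A : Finset ℚ) (j : ℕ) : ∀ s ∈ Dl A j, -s ∈ Dl A j := by
  intro s hs
  have h := Finset.mem_filter.mp hs
  refine Finset.mem_filter.mpr ⟨dif_neg h.1, ?_⟩
  unfold lv
  rw [rep_neg]
  exact h.2

/-- Sums over the difference set by levels. -/
lemma sum_lv (A : Finset ℚ) (F : ℚ → ℝ) :
    ∑ s ∈ dif A, F s = ∑ i ∈ Finset.range (LL A), ∑ s ∈ Dl A i, F s :=
  (Finset.sum_fiberwise_of_maps_to (fun s _ => Finset.mem_range.mpr (lv_lt A s)) F).symm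

lemma pig {L : ℕ} (hL : 0 < L) (f : ℕ → ℝ) (X : ℝ) (h : X ≤ ∑ i ∈ Finset.range L, f i) :
    ∃ i ∈ Finset.range L, X ≤ (L : ℝ) * f i := by
  by_contra hcon
  push Not at hcon
  have hL' : (0 : ℝ) < L := by exact_mod_cast hL
  have h1 : ∑ i ∈ Finset.range L, (L : ℝ) * f i < ∑ _i ∈ Finset.range L, X :=
    Finset.sum_lt_sum_of_nonempty ⟨0, Finset.mem_range.mpr hL⟩ hcon
  rw [← Finset.mul_sum, Finset.sum_const, Finset.card_range, nsmul_eq_mul] at h1
  have h2 := lt_of_mul_lt_mul_left h1 hL'.le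
  linarith

/-- The `c ∈ A` with `c + x, c + y ∈ A`. -/
def QQ (A : Finset ℚ) (z : ℚ × ℚ) : Finset ℚ := A.filter (fun c => c + z.1 ∈ A ∧ c + z.2 ∈ A)

/-- Pairs of elements of `D` with difference of level `k`. -/
def XY (A D : Finset ℚ) (k : ℕ) : Finset (ℚ × ℚ) :=
  (D ×ˢ D).filter (fun z => z.1 - z.2 ∈ Dl A k)

lemma shift_sum (A D : Finset ℚ) (c : ℚ) (F : ℚ → ℝ) :
    ∑ a ∈ A.filter (fun a => a - c ∈ D), F a = ∑ x ∈ D.filter (fun x => c + x ∈ A), F (c + x) := by
  refine Finset.sum_nbij' (fun a => a - c) (fun x => c + x) ?_ ?_ ?_ ?_ ?_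
  · intro a ha
    rw [Finset.mem_filter] at ha ⊢
    refine ⟨ha.2, ?_⟩
    have : c + (a - c) = a := by ring
    rw [this]; exact ha.1
  · intro x hx
    rw [Finset.mem_filter] at hx ⊢
    refine ⟨hx.2, ?_⟩
    have : c + x - c = x := by ring
    rw [this]; exact hx.1
  · intro a _
    ring
  · intro x _
    ring
  · intro a _
    congr 1
    ring

lemma TT_eq (A D : Finset ℚ) :
    TT A D = ∑ z ∈ D ×ˢ D, ((QQ A z).card : ℝ) * (rep A (z.1 - z.2) : ℝ) := by
  unfold TT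
  have h1 : ∀ c ∈ A, ∑ a ∈ A.filter (fun a => a - c ∈ D), ∑ b ∈ A.filter (fun b => b - c ∈ D),
      (rep A (a - b) : ℝ) = ∑ z ∈ D ×ˢ D,
        (if c + z.1 ∈ A ∧ c + z.2 ∈ A then (rep A (z.1 - z.2) : ℝ) else 0) := by
    intro c _
    rw [shift_sum A D c (fun a => ∑ b ∈ A.filter (fun b => b - c ∈ D), (rep A (a - b) : ℝ))]
    rw [Finset.sum_product, Finset.sum_filter]
    refine Finset.sum_congr rfl fun x _ => ?_
    split_ifs with hx
    · rw [shift_sum A D c (fun b => (rep A (c + x - b) : ℝ)), Finset.sum_filter]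
      refine Finset.sum_congr rfl fun y _ => ?_
      have e : c + x - (c + y) = x - y := by ring
      by_cases hy : c + y ∈ A
      · rw [if_pos hy, if_pos ⟨hx, hy⟩, e]
      · rw [if_neg hy, if_neg (fun h => hy h.2)]
    · symm
      refine Finset.sum_eq_zero fun y _ => ?_
      rw [if_neg (fun h => hx h.1)]
  rw [Finset.sum_congr rfl h1, Finset.sum_comm]
  refine Finset.sum_congr rfl fun z _ => ?_
  rw [← Finset.sum_filter, Finset.sum_const, nsmul_eq_mul]
  rfl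

/-- Weight of the level `k`. -/
def tk (A D : Finset ℚ) (k : ℕ) : ℕ := ∑ z ∈ XY A D k, (QQ A z).card

lemma TT_le (A D : Finset ℚ) :
    TT A D ≤ ∑ k ∈ Finset.range (LL A), 2 * 2 ^ k * (tk A D k : ℝ) := by
  rw [TT_eq]
  have h1 : ∀ z ∈ D ×ˢ D, ((QQ A z).card : ℝ) * (rep A (z.1 - z.2) : ℝ) ≤
      ∑ k ∈ Finset.range (LL A), (if z.1 - z.2 ∈ Dl A k then 2 * 2 ^ k * ((QQ A z).card : ℝ) else 0) := by
    intro z _
    by_cases hz : (QQ A z).card = 0
    · rw [hz]; simp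
    · obtain ⟨c, hc⟩ := Finset.card_pos.mp (Nat.pos_of_ne_zero hz)
      have hc' := Finset.mem_filter.mp hc
      have hd : z.1 - z.2 ∈ dif A := by
        refine Finset.mem_image.mpr ⟨(c + z.1, c + z.2), Finset.mem_product.mpr hc'.2, ?_⟩
        simp only
        ring
      have hk : z.1 - z.2 ∈ Dl A (lv A (z.1 - z.2)) := Finset.mem_filter.mpr ⟨hd, rfl⟩
      have h2 : ((QQ A z).card : ℝ) * (rep A (z.1 - z.2) : ℝ) ≤
          (if z.1 - z.2 ∈ Dl A (lv A (z.1 - z.2)) then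
            2 * 2 ^ (lv A (z.1 - z.2)) * ((QQ A z).card : ℝ) else 0) := by
        rw [if_pos hk]
        have h3 : (rep A (z.1 - z.2) : ℝ) ≤ 2 * 2 ^ (lv A (z.1 - z.2)) := by
          have := (rep_lt hk).le
          rw [pow_succ] at this
          have h4 : ((rep A (z.1 - z.2) : ℕ) : ℝ) ≤ ((2 ^ (lv A (z.1 - z.2)) * 2 : ℕ) : ℝ) := by
            exact_mod_cast this
          push_cast at h4
          linarith
        have h5 : (0 : ℝ) ≤ ((QQ A z).card : ℝ) := Nat.cast_nonneg _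
        nlinarith
      refine h2.trans (Finset.single_le_sum (f := fun k => if z.1 - z.2 ∈ Dl A k then
        2 * 2 ^ k * ((QQ A z).card : ℝ) else 0) (fun k _ => ?_) (Finset.mem_range.mpr (lv_lt A _)))
      split_ifs <;> positivity
  refine (Finset.sum_le_sum h1).trans (le_of_eq ?_)
  rw [Finset.sum_comm]
  refine Finset.sum_congr rfl fun k _ => ?_
  rw [← Finset.sum_filter]
  unfold tk XY
  push_cast
  rw [Finset.mul_sum]

lemma card_sq_sub {A Q : Finset ℚ} (hQ : Q ⊆ A) :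
    Q.card ^ 2 = ∑ s ∈ dif A, (Q.filter (fun c => c + s ∈ Q)).card := by
  rw [pow_two, ← Finset.card_product, Finset.card_eq_sum_card_fiberwise (t := dif A)
    (f := fun p : ℚ × ℚ => p.2 - p.1)]
  · refine Finset.sum_congr rfl fun s _ => ?_
    refine Finset.card_bij (fun p _ => p.1) ?_ ?_ ?_
    · intro p hp
      rw [Finset.mem_filter, Finset.mem_product] at hp
      rw [Finset.mem_filter]
      refine ⟨hp.1.1, ?_⟩
      have : p.1 + s = p.2 := by
        have := hp.2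
        try simp only at this
        linarith
      rw [this]; exact hp.1.2
    · intro p hp q hq h
      have h1 := (Finset.mem_filter.mp hp).2
      have h2 := (Finset.mem_filter.mp hq).2
      try simp only at h1 h2 h
      exact Prod.ext h (by linarith)
    · intro c hc
      rw [Finset.mem_filter] at hc
      refine ⟨(c, c + s), ?_, rfl⟩
      rw [Finset.mem_filter, Finset.mem_product]
      refine ⟨⟨hc.1, hc.2⟩, ?_⟩
      simp only
      ring
  · intro p hp
    have hp' := Finset.mem_product.mp (Finset.mem_coe.mp hp)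
    exact Finset.mem_coe.mpr (Finset.mem_image.mpr
      ⟨(p.2, p.1), Finset.mem_product.mpr ⟨hQ hp'.2, hQ hp'.1⟩, rfl⟩)

/-- Pairs of translates by `s`. -/
def Ss (A D : Finset ℚ) (k : ℕ) (s : ℚ) : ℕ :=
  ∑ z ∈ XY A D k, ((QQ A z).filter (fun c => c + s ∈ QQ A z)).card

lemma sum_sq_QQ (A D : Finset ℚ) (k : ℕ) :
    ∑ z ∈ XY A D k, (QQ A z).card ^ 2 = ∑ s ∈ dif A, Ss A D k s := by
  unfold Ss
  rw [Finset.sum_comm]
  refine Finset.sum_congr rfl fun z _ => ?_
  exact card_sq_sub (Finset.filter_subset _ _)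

lemma Ss_le_t (A D : Finset ℚ) (k : ℕ) (s : ℚ) : Ss A D k s ≤ tk A D k :=
  Finset.sum_le_sum fun _ _ => Finset.card_filter_le _ _

lemma Ss_le_cube (A D : Finset ℚ) (k : ℕ) (s : ℚ) : Ss A D k s ≤ rep A s ^ 3 := by
  unfold Ss
  rw [← Finset.card_sigma, rep_eq]
  obtain ⟨R, hR⟩ : ∃ R : Finset ℚ, R = A.filter (fun b => b + s ∈ A) := ⟨_, rfl⟩
  rw [← hR]
  have : R.card ^ 3 = (R ×ˢ R ×ˢ R).card := by
    rw [Finset.card_product, Finset.card_product]; ring
  rw [this]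
  refine Finset.card_le_card_of_injOn (fun p => (p.2, p.2 + p.1.1, p.2 + p.1.2)) ?_ ?_
  · intro p hp
    have hp' := Finset.mem_sigma.mp (Finset.mem_coe.mp hp)
    have h1 := Finset.mem_filter.mp hp'.2
    have h2 := Finset.mem_filter.mp h1.1
    have h3 := Finset.mem_filter.mp h1.2
    refine Finset.mem_coe.mpr (Finset.mem_product.mpr ⟨?_, Finset.mem_product.mpr ⟨?_, ?_⟩⟩)
    · rw [hR]
      exact Finset.mem_filter.mpr ⟨h2.1, h3.1⟩
    · rw [hR]
      refine Finset.mem_filter.mpr ⟨h2.2.1, ?_⟩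
      have e : p.2 + p.1.1 + s = p.2 + s + p.1.1 := by ring
      simp only
      rw [e]; exact h3.2.1
    · rw [hR]
      refine Finset.mem_filter.mpr ⟨h2.2.2, ?_⟩
      have e : p.2 + p.1.2 + s = p.2 + s + p.1.2 := by ring
      simp only
      rw [e]; exact h3.2.2
  · rintro ⟨⟨x, y⟩, c⟩ _ ⟨⟨x', y'⟩, c'⟩ _ h
    simp only [Prod.mk.injEq] at h
    obtain ⟨h1, h2, h3⟩ := h
    subst h1
    have h4 : x = x' := by linarith
    have h5 : y = y' := by linarith
    subst h4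
    subst h5
    rfl

/-- Number of pairs times level. -/
lemma N_le_col (A D : Finset ℚ) (k : ℕ) :
    (XY A D k).card * 2 ^ k ≤ col (A ×ˢ D) (fun z : ℚ × ℚ => z.1 + z.2) := by
  have h1 : (XY A D k).card * 2 ^ k ≤ ∑ z ∈ XY A D k,
      ((A ×ˢ A).filter (fun p : ℚ × ℚ => p.1 - p.2 = z.1 - z.2)).card := by
    rw [← smul_eq_mul, ← Finset.sum_const]
    refine Finset.sum_le_sum fun z hz => ?_
    exact rep_ge (Finset.mem_filter.mp hz).2
  refine h1.trans ?_
  rw [← Finset.card_sigma]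
  unfold col
  refine Finset.card_le_card_of_injOn
    (fun p => ((p.2.1, p.1.2), (p.2.2, p.1.1))) ?_ ?_
  · intro p hp
    have hp' := Finset.mem_sigma.mp (Finset.mem_coe.mp hp)
    have h2 := Finset.mem_filter.mp hp'.1
    have h3 := Finset.mem_filter.mp hp'.2
    have h4 := Finset.mem_product.mp h2.1
    have h5 := Finset.mem_product.mp h3.1
    refine Finset.mem_coe.mpr (Finset.mem_filter.mpr ⟨Finset.mem_product.mpr
      ⟨Finset.mem_product.mpr ⟨h5.1, h4.2⟩, Finset.mem_product.mpr ⟨h5.2, h4.1⟩⟩, ?_⟩)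
    have h6 := h3.2
    simp only
    linarith
  · rintro ⟨⟨x, y⟩, ⟨a, b⟩⟩ _ ⟨⟨x', y'⟩, ⟨a', b'⟩⟩ _ h
    simp only [Prod.mk.injEq] at h
    obtain ⟨⟨h1, h2⟩, h3, h4⟩ := h
    subst h1 h2 h3 h4
    rfl

lemma N_le_prod (A D : Finset ℚ) (k : ℕ) : (XY A D k).card ≤ D.card * (Dl A k).card := by
  rw [← Finset.card_product]
  refine Finset.card_le_card_of_injOn (fun z => (z.1, z.1 - z.2)) ?_ ?_
  · intro z hz
    have h := Finset.mem_filter.mp (Finset.mem_coe.mp hz)
    exact Finset.mem_coe.mpr (Finset.mem_product.mpr ⟨(Finset.mem_product.mp h.1).1, h.2⟩)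
  · intro z _ w _ h
    simp only [Prod.mk.injEq] at h
    exact Prod.ext h.1 (by linarith [h.1, h.2])

lemma card_dif (A : Finset ℚ) : (dif A).card ≤ A.card ^ 2 := by
  unfold dif
  refine Finset.card_image_le.trans (le_of_eq ?_)
  rw [Finset.card_product, pow_two]

end H45SR
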