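import Pool.Agent.H45.SQ.Rec
import Pool.Agent.H45.SR.Bil

set_option autoImplicit false

namespace H45SR

open Finset H45SQ

section recur

variable {X Y : Type*} [DecidableEq X] [DecidableEq Y]

/-- Representations of squares as differences of two sequences of rationals. -/
theorem pairs_le (L t : ℝ) (hL : 1 ≤ L) (ht : 1 ≤ t) (A : Finset ℚ)
    (hA : ∀ a ∈ A, IsSquare a) (hAM : ∀ a ∈ A, hq L L a)
    (S : Finset X) (R : Finset Y) (φ : X → ℚ) (ψ : Y → ℚ)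
    (hφ : ∀ x ∈ S, hq L L (φ x)) (hψ : ∀ y ∈ R, hq L L (ψ y)) :
    (((S ×ˢ R).filter (fun z : X × Y => φ z.1 - ψ z.2 ∈ A)).card : ℝ) ^ 2 ≤
      2 * (2500 * Real.log (2 * L ^ 2)) ^ 2 *
        ((t * (col S φ : ℝ) + (S.card : ℝ) ^ 2 / t) * (t * (col R ψ : ℝ) + (R.card : ℝ) ^ 2 / t))
      + 2 * ((col S φ : ℝ) * (col R ψ : ℝ)) := by
  have hM : (2 : ℝ) ≤ 2 * L ^ 2 := by nlinarith
  have hLM : L ≤ 2 * L ^ 2 := by nlinarith
  have hLL : L * L + L * L ≤ 2 * L ^ 2 := by nlinarith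
  obtain ⟨f, hf⟩ : ∃ f : ℚ → ℝ, f = fun u => ((S.filter (fun x => φ x = u)).card : ℝ) := ⟨_, rfl⟩
  obtain ⟨g, hg⟩ : ∃ g : ℚ → ℝ, g = fun v => ((R.filter (fun y => ψ y = v)).card : ℝ) := ⟨_, rfl⟩
  have f0 : ∀ u, 0 ≤ f u := by intro u; rw [hf]; exact Nat.cast_nonneg _
  have g0 : ∀ u, 0 ≤ g u := by intro u; rw [hg]; exact Nat.cast_nonneg _
  have F1 : ∑ u ∈ S.image φ, f u = (S.card : ℝ) := by
    rw [hf, Finset.card_eq_sum_card_image φ S]
    push_cast; rfl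
  have G1 : ∑ v ∈ R.image ψ, g v = (R.card : ℝ) := by
    rw [hg, Finset.card_eq_sum_card_image ψ R]
    push_cast; rfl
  have F2 : ∑ u ∈ S.image φ, f u ^ 2 = (col S φ : ℝ) := by
    rw [hf, col_eq]
    push_cast; rfl
  have G2 : ∑ v ∈ R.image ψ, g v ^ 2 = (col R ψ : ℝ) := by
    rw [hg, col_eq]
    push_cast; rfl
  have hb := bil' (2 * L ^ 2) t hM ht (S.image φ) (R.image ψ) f g (fun u _ => f0 u) (fun v _ => g0 v)
    (by
      intro b hb
      obtain ⟨x, hx, rfl⟩ := Finset.mem_image.mp hb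
      exact (hφ x hx).2.trans hLM)
    (by
      intro b hb
      obtain ⟨x, hx, rfl⟩ := Finset.mem_image.mp hb
      exact (hψ x hx).2.trans hLM)
    (by
      intro b hb b' hb'
      obtain ⟨x, hx, rfl⟩ := Finset.mem_image.mp hb
      obtain ⟨x', hx', rfl⟩ := Finset.mem_image.mp hb'
      exact (hq_sub (hφ x hx) (hφ x' hx')).1.trans hLL)
    (by
      intro b hb b' hb'
      obtain ⟨x, hx, rfl⟩ := Finset.mem_image.mp hb
      obtain ⟨x', hx', rfl⟩ := Finset.mem_image.mp hb'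
      exact (hq_sub (hψ x hx) (hψ x' hx')).1.trans hLL)
    (fun u v => u - v ∈ A ∧ u ≠ v)
    (by
      intro b _ v _ h
      exact ⟨hA _ h.1, sub_ne_zero.mpr h.2, (hAM _ h.1).1.trans hLM⟩)
  rw [F1, F2, G1, G2] at hb
  obtain ⟨I, hI⟩ : ∃ I : ℝ, I = ∑ b ∈ S.image φ, ∑ v ∈ R.image ψ,
    if b - v ∈ A ∧ b ≠ v then f b * g v else 0 := ⟨_, rfl⟩
  rw [← hI] at hb
  obtain ⟨Z, hZ⟩ : ∃ Z : ℝ, Z = ∑ b ∈ S.image φ ∩ R.image ψ, f b * g b := ⟨_, rfl⟩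
  have hZ2 : Z ^ 2 ≤ (col S φ : ℝ) * (col R ψ : ℝ) := by
    rw [hZ, ← F2, ← G2]
    calc (∑ b ∈ S.image φ ∩ R.image ψ, f b * g b) ^ 2
        ≤ (∑ b ∈ S.image φ ∩ R.image ψ, f b ^ 2) * (∑ b ∈ S.image φ ∩ R.image ψ, g b ^ 2) :=
          Finset.sum_mul_sq_le_sq_mul_sq _ _ _
      _ ≤ _ := by
          apply mul_le_mul
          · exact Finset.sum_le_sum_of_subset_of_nonneg Finset.inter_subset_left
              (fun _ _ _ => sq_nonneg _)
          · exact Finset.sum_le_sum_of_subset_of_nonneg Finset.inter_subset_right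
              (fun _ _ _ => sq_nonneg _)
          · exact Finset.sum_nonneg (fun _ _ => sq_nonneg _)
          · exact Finset.sum_nonneg (fun _ _ => sq_nonneg _)
  have hJ : (((S ×ˢ R).filter (fun z : X × Y => φ z.1 - ψ z.2 ∈ A)).card : ℝ) ≤ I + Z := by
    rw [count_pairs S R φ ψ (fun u v => u - v ∈ A)]
    push_cast
    have e1 : ∀ b ∈ S.image φ, ∀ v ∈ R.image ψ,
        ((if b - v ∈ A then ((S.filter (fun x => φ x = b)).card : ℝ) *
          ((R.filter (fun y => ψ y = v)).card : ℝ) else 0) : ℝ)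
        ≤ (if b - v ∈ A ∧ b ≠ v then f b * g v else 0) + (if b = v then f b * g v else 0) := by
      intro b _ v _
      have h0 : 0 ≤ f b * g v := mul_nonneg (f0 b) (g0 v)
      have h1 : ((S.filter (fun x => φ x = b)).card : ℝ) * ((R.filter (fun y => ψ y = v)).card : ℝ)
          = f b * g v := by rw [hf, hg]
      rw [h1]
      by_cases hbv : b = v
      · rw [if_pos hbv]
        split_ifs <;> linarith
      · rw [if_neg hbv]
        by_cases hA' : b - v ∈ A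
        · rw [if_pos hA', if_pos ⟨hA', hbv⟩]; linarith
        · rw [if_neg hA', if_neg (fun h => hA' h.1)]; linarith
    have e2 : ∑ b ∈ S.image φ, ∑ v ∈ R.image ψ, (if b = v then f b * g v else 0) = Z := by
      rw [hZ, ← Finset.filter_mem_eq_inter, Finset.sum_filter]
      refine Finset.sum_congr rfl (fun b _ => ?_)
      rw [Finset.sum_ite_eq]
    calc _ ≤ ∑ b ∈ S.image φ, ∑ v ∈ R.image ψ,
          ((if b - v ∈ A ∧ b ≠ v then f b * g v else 0) + (if b = v then f b * g v else 0)) :=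
          Finset.sum_le_sum (fun b hb => Finset.sum_le_sum (fun v hv => e1 b hb v hv))
      _ = I + Z := by
          simp only [Finset.sum_add_distrib]
          rw [e2, ← hI]
  have hI0 : 0 ≤ I := by
    rw [hI]
    refine Finset.sum_nonneg (fun b _ => Finset.sum_nonneg (fun v _ => ?_))
    split_ifs
    · exact mul_nonneg (f0 b) (g0 v)
    · exact le_refl _
  have hZ0 : 0 ≤ Z := by
    rw [hZ]; exact Finset.sum_nonneg (fun b _ => mul_nonneg (f0 b) (g0 b))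
  calc _ ≤ (I + Z) ^ 2 := pow_le_pow_left₀ (Nat.cast_nonneg _) hJ 2
    _ ≤ 2 * I ^ 2 + 2 * Z ^ 2 := by nlinarith [sq_nonneg (I - Z)]
    _ ≤ _ := by nlinarith

/-- The recursive inequality. -/
theorem recur (L : ℝ) (hL : 1 ≤ L) (A : Finset ℚ)
    (hA : ∀ a ∈ A, IsSquare a) (hAM : ∀ a ∈ A, hq L L a)
    (S : Finset X) (R : Finset Y) (φ : X → ℚ) (ψ : Y → ℚ)
    (hφ : ∀ x ∈ S, hq L L (φ x)) (hψ : ∀ y ∈ R, hq L L (ψ y))
    (hJ : col S φ ≤ ((S ×ˢ R).filter (fun z : X × Y => φ z.1 - ψ z.2 ∈ A)).card) :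
    (col S φ : ℝ) ^ 2 ≤
        8 * (2500 * Real.log (2 * L ^ 2)) ^ 2 * ((S.card : ℝ) ^ 2 * (col R ψ : ℝ)) ∨
      (col S φ : ℝ) ≤ 12 * (2500 * Real.log (2 * L ^ 2)) ^ 2 * (R.card : ℝ) ^ 2 := by
  have hM0 : (2 : ℝ) ≤ 2 * L ^ 2 := by nlinarith
  obtain ⟨M, hMM⟩ : ∃ M : ℝ, M = 2 * L ^ 2 := ⟨_, rfl⟩
  have hM : (2 : ℝ) ≤ M := by rw [hMM]; exact hM0
  have hlog2 : (0.69 : ℝ) ≤ Real.log M := by
    have h1 := Real.log_two_gt_d9
    have h2 : Real.log 2 ≤ Real.log M := Real.log_le_log (by norm_num) hM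
    linarith
  obtain ⟨w, hw⟩ : ∃ w : ℝ, w = 2500 * Real.log M := ⟨_, rfl⟩
  have hw1 : 1 ≤ w := by rw [hw]; linarith
  by_cases hS : S.card = 0
  · right
    have h1 := col_le S φ
    rw [hS] at h1
    have h2 : col S φ = 0 := by simpa using h1
    rw [h2]
    push_cast
    positivity
  obtain ⟨E, hE⟩ : ∃ E : ℝ, E = (col S φ : ℝ) := ⟨_, rfl⟩
  obtain ⟨s, hs⟩ : ∃ s : ℝ, s = (S.card : ℝ) := ⟨_, rfl⟩
  obtain ⟨E', hE'⟩ : ∃ E' : ℝ, E' = (col R ψ : ℝ) := ⟨_, rfl⟩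
  obtain ⟨r, hr⟩ : ∃ r : ℝ, r = (R.card : ℝ) := ⟨_, rfl⟩
  have hs1 : 1 ≤ s := by rw [hs]; exact_mod_cast Nat.one_le_iff_ne_zero.mpr hS
  have hsE : s ≤ E := by rw [hs, hE]; exact_mod_cast le_col S φ
  have hEs : E ≤ s ^ 2 := by rw [hs, hE]; exact_mod_cast col_le S φ
  have hEr : E' ≤ r ^ 2 := by rw [hE', hr]; exact_mod_cast col_le R ψ
  have hE'0 : 0 ≤ E' := by rw [hE']; exact Nat.cast_nonneg _
  have hE0 : 0 < E := by linarith
  obtain ⟨q, hq⟩ : ∃ q : ℝ, q = Real.sqrt E := ⟨_, rfl⟩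
  have hq0 : 0 < q := by rw [hq]; exact Real.sqrt_pos.mpr hE0
  have hq2 : q ^ 2 = E := by rw [hq]; exact Real.sq_sqrt hE0.le
  have hqs : q ≤ s := by
    rw [hq]; exact Real.sqrt_le_iff.mpr ⟨by linarith, hEs⟩
  have ht : 1 ≤ s / q := by rw [le_div_iff₀ hq0]; linarith
  have hp := pairs_le L (s / q) hL ht A hA hAM S R φ ψ hφ hψ
  rw [← hMM] at hp ⊢
  rw [← hE, ← hs, ← hE', ← hr, ← hw] at hp
  have hJ' : E ≤ (((S ×ˢ R).filter (fun z : X × Y => φ z.1 - ψ z.2 ∈ A)).card : ℝ) := by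
    rw [hE]; exact_mod_cast hJ
  have h1 : E ^ 2 ≤ 2 * w ^ 2 * ((s / q * E + s ^ 2 / (s / q)) * (s / q * E' + r ^ 2 / (s / q)))
      + 2 * (E * E') := (pow_le_pow_left₀ hE0.le hJ' 2).trans hp
  have h2 : (s / q * E + s ^ 2 / (s / q)) * (s / q * E' + r ^ 2 / (s / q))
      = 2 * s ^ 2 * E' + 2 * r ^ 2 * E := by
    rw [← hq2]
    have hs0 : s ≠ 0 := by positivity
    field_simp
    ring
  rw [h2] at h1
  have hw2 : 1 ≤ w ^ 2 := one_le_pow₀ hw1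
  have h3 : E ^ 2 ≤ 4 * w ^ 2 * (s ^ 2 * E') + 6 * w ^ 2 * r ^ 2 * E := by
    have h4 : E * E' ≤ w ^ 2 * r ^ 2 * E := by
      have h5 : E' ≤ w ^ 2 * r ^ 2 := by nlinarith [sq_nonneg r]
      nlinarith
    nlinarith
  rw [← hE, ← hs, ← hE', ← hr, ← hw]
  by_cases h : E ^ 2 ≤ 8 * w ^ 2 * (s ^ 2 * E')
  · exact Or.inl h
  · right
    push Not at h
    have h6 : E * E ≤ 12 * w ^ 2 * r ^ 2 * E := by nlinarith
    exact le_of_mul_le_mul_right h6 hE0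

end recur

end H45SR
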