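import Pool.Agent.H45.SQ.Tup
import Pool.Agent.H45.SR.Rec
import Pool.Agent.H45.SR.Md

/-! Header (helper45): port of `ten_rec` (`Pool/Agent/H45/SQ/Tup.lean`), `ten_bound_int`, `mix_int`
(`Pool/Agent/H45/SQ/Fin.lean`) to rationals `x` with `|x.num| ≤ H`, `x.den ≤ Q`; `tup`, `ten`,
`ten_le`, `ten_succ`, `card_tup`, `mem_tup`, `step_real` of `H45SQ` are generic and are used as they
are. Use `H45SR.recur` with `L = (k + 2) H^2 Q^(2 (k + 2))` in `ten_rec` (sums of `k + 2` squares have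
height `hq ((k+2) H^2 (Q^2)^(k+2)) ((Q^2)^(k+2))` by `hq_sum`), `log (2 L^2) ≤ 5 lg (k+2) H Q`,
so `w = 12500 lg (k+2) H Q`, `K = 4 w`; and `L = 2 H^2 Q^4` in `mix_bd`
(`log (2 L^2) = log (8 H^4 Q^8) ≤ 8 log (H Q)`). -/

set_option autoImplicit false

namespace H45SR

open Finset H45SQ

/-- Heights of sums. -/
lemma hq_sum (k : ℕ) (N D : ℝ) (hN : 0 ≤ N) (hD : 1 ≤ D) (x : Fin k → ℚ) (hx : ∀ i, hq N D (x i)) :
    hq (k * N * D ^ k) (D ^ k) (∑ i, x i) := by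
  induction k with
  | zero =>
    have h := hq_zero
    simpa using h
  | succ k ih =>
    have h1 := hq_add (hx 0) (ih (fun i => x i.succ) (fun i => hx i.succ))
    rw [Fin.sum_univ_succ]
    have e1 : ((k + 1 : ℕ) : ℝ) * N * D ^ (k + 1) = N * D ^ k * D + (k : ℝ) * N * D ^ k * D := by
      push_cast; ring
    have e2 : D ^ (k + 1) = D * D ^ k := by ring
    have e3 : 0 ≤ N * D ^ k := mul_nonneg hN (pow_nonneg (by linarith) k)
    refine hq_mono h1 ?_ (le_of_eq e2.symm)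
    rw [e1]
    nlinarith

/-- Squares of rationals with bounded numerator and denominator. -/
lemma hq_sq2 {H Q : ℕ} {x : ℚ} (h1 : |x.num| ≤ (H : ℤ)) (h2 : x.den ≤ Q) :
    hq ((H : ℝ) ^ 2) ((Q : ℝ) ^ 2) (x ^ 2) := by
  have e : x ^ 2 = x * x := by ring
  rw [e]
  unfold hq
  rw [Rat.mul_self_num, Rat.mul_self_den, abs_mul]
  have h1' : ((|x.num| : ℤ) : ℝ) ≤ (H : ℝ) := by exact_mod_cast h1
  have h2' : ((x.den : ℕ) : ℝ) ≤ (Q : ℝ) := by exact_mod_cast h2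
  have h3 : (0 : ℝ) ≤ ((|x.num| : ℤ) : ℝ) := by exact_mod_cast abs_nonneg x.num
  constructor
  · push_cast at *
    nlinarith
  · push_cast
    have : (0 : ℝ) ≤ (x.den : ℝ) := Nat.cast_nonneg _
    nlinarith

/-- The recursion for `k + 2` summands. -/
lemma ten_rec (H Q : ℕ) (hH : 2 ≤ H) (hQ : 1 ≤ Q) (A : Finset ℚ)
    (hA : ∀ a ∈ A, ∃ x : ℚ, |x.num| ≤ (H : ℤ) ∧ x.den ≤ Q ∧ a = x ^ 2) (k : ℕ) :
    ((ten (k + 2) A : ℝ)) ^ 2 ≤ 8 * (12500 * lg (k + 2 : ℝ) H Q) ^ 2 *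
        (((A.card : ℝ) ^ (k + 2)) ^ 2 * (ten (k + 1) A : ℝ)) ∨
      (ten (k + 2) A : ℝ) ≤ 12 * (12500 * lg (k + 2 : ℝ) H Q) ^ 2 *
        ((A.card : ℝ) ^ (k + 1)) ^ 2 := by
  have hHr : (2 : ℝ) ≤ H := by exact_mod_cast hH
  have hQr : (1 : ℝ) ≤ Q := by exact_mod_cast hQ
  have hk0 : (0 : ℝ) ≤ k := Nat.cast_nonneg _
  have hA1 : ∀ a ∈ A, IsSquare a := by
    intro a ha
    obtain ⟨x, _, _, rfl⟩ := hA a ha
    exact ⟨x, by ring⟩
  obtain ⟨N, hN⟩ : ∃ N : ℝ, N = (H : ℝ) ^ 2 := ⟨_, rfl⟩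
  obtain ⟨D, hD⟩ : ∃ D : ℝ, D = (Q : ℝ) ^ 2 := ⟨_, rfl⟩
  have hN1 : 1 ≤ N := by rw [hN]; nlinarith
  have hD1 : 1 ≤ D := by rw [hD]; nlinarith
  have hA2 : ∀ a ∈ A, hq N D a := by
    intro a ha
    obtain ⟨x, h1, h2, rfl⟩ := hA a ha
    rw [hN, hD]
    exact hq_sq2 h1 h2
  obtain ⟨L, hL⟩ : ∃ L : ℝ, L = (k + 2 : ℝ) * N * D ^ (k + 2) := ⟨_, rfl⟩
  have hDk : 1 ≤ D ^ (k + 1) := one_le_pow₀ hD1
  have hDk2 : D ^ (k + 1) ≤ D ^ (k + 2) := pow_le_pow_right₀ hD1 (by omega)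
  have hDk3 : D ≤ D ^ (k + 2) := by
    calc D = D ^ 1 := (pow_one D).symm
      _ ≤ D ^ (k + 2) := pow_le_pow_right₀ hD1 (by omega)
  have hkN : 1 ≤ (k + 2 : ℝ) * N := by nlinarith
  have hL0 : D ^ (k + 2) ≤ L := by rw [hL]; nlinarith
  have hLN : N ≤ L := by
    rw [hL]
    calc N ≤ (k + 2 : ℝ) * N := by nlinarith
      _ = (k + 2 : ℝ) * N * 1 := by ring
      _ ≤ (k + 2 : ℝ) * N * D ^ (k + 2) := mul_le_mul_of_nonneg_left (by linarith) (by linarith)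
  have hL1 : 1 ≤ L := by linarith
  have hrec := recur L hL1 A hA1 (fun a ha => hq_mono (hA2 a ha) hLN (by linarith))
    (tup (k + 2) A) (tup (k + 1) A) (fun x => ∑ i, x i) (fun x => ∑ i, x i)
    (by
      intro x hx
      rw [mem_tup] at hx
      refine hq_mono (hq_sum (k + 2) N D (by linarith) hD1 x (fun i => hA2 _ (hx i))) ?_ hL0
      rw [hL]
      push_cast
      exact le_refl _)
    (by
      intro x hx
      rw [mem_tup] at hx
      refine hq_mono (hq_sum (k + 1) N D (by linarith) hD1 x (fun i => hA2 _ (hx i))) ?_ (by linarith)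
      rw [hL]
      push_cast
      exact mul_le_mul (by nlinarith) hDk2 (by linarith) (by linarith))
    (ten_succ (k + 1) A)
  rw [card_tup, card_tup] at hrec
  push_cast at hrec
  have hlogH : 0 ≤ Real.log H := Real.log_nonneg (by linarith)
  have hlogQ : 0 ≤ Real.log Q := Real.log_nonneg hQr
  have hlogk : 0 ≤ Real.log (k + 2 : ℝ) := Real.log_nonneg (by linarith)
  have hlog2 : Real.log 2 ≤ Real.log H := Real.log_le_log (by norm_num) hHr
  have hlL : Real.log (2 * L ^ 2) ≤ 5 * lg (k + 2 : ℝ) H Q := by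
    have e1 : 2 * L ^ 2 = 2 * ((k + 2 : ℝ) ^ 2 * ((H : ℝ) ^ 4 * (Q : ℝ) ^ (4 * (k + 2)))) := by
      rw [hL, hN, hD]; ring
    have hH0 : (H : ℝ) ≠ 0 := by linarith
    have hk2 : (k + 2 : ℝ) ≠ 0 := by linarith
    unfold lg
    rw [e1, Real.log_mul (by norm_num) (by positivity), Real.log_mul (by positivity) (by positivity),
      Real.log_mul (by positivity) (by positivity),
      Real.log_pow, Real.log_pow, Real.log_pow, Real.log_mul hk2 hH0]
    push_cast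
    have h3 : 0 ≤ (k + 2 : ℝ) * Real.log Q := by positivity
    nlinarith
  have hL2 : (2 : ℝ) ≤ 2 * L ^ 2 := by nlinarith
  have hlL0 : 0 ≤ Real.log (2 * L ^ 2) := Real.log_nonneg (by linarith)
  have hw : (2500 * Real.log (2 * L ^ 2)) ^ 2 ≤ (12500 * lg (k + 2 : ℝ) H Q) ^ 2 :=
    pow_le_pow_left₀ (by linarith) (by linarith) 2
  rcases hrec with h | h
  · left
    refine h.trans ?_
    apply mul_le_mul_of_nonneg_right _ (by positivity)
    linarith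
  · right
    refine h.trans ?_
    apply mul_le_mul_of_nonneg_right _ (by positivity)
    linarith

/-- The bound for all numbers of summands. -/
theorem ten_bound (H Q : ℕ) (hH : 2 ≤ H) (hQ : 1 ≤ Q) (A : Finset ℚ)
    (hA : ∀ a ∈ A, ∃ x : ℚ, |x.num| ≤ (H : ℤ) ∧ x.den ≤ Q ∧ a = x ^ 2) (k : ℕ) :
    (ten (k + 1) A : ℝ) ≤
      (50000 * lg ((k : ℝ) + 1) H Q) ^ (2 - 2 * (1 / 2 : ℝ) ^ k) *
        (A.card : ℝ) ^ (2 * (k : ℝ) + (1 / 2 : ℝ) ^ k) := by
  have hHr : (2 : ℝ) ≤ H := by exact_mod_cast hH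
  have hQr : (1 : ℝ) ≤ Q := by exact_mod_cast hQ
  have hlogQ : 0 ≤ Real.log Q := Real.log_nonneg hQr
  have hlog2 : (0.69 : ℝ) ≤ Real.log 2 := by
    have := Real.log_two_gt_d9
    linarith
  by_cases hA0 : A.card = 0
  · have h1 := ten_le k A
    rw [hA0] at h1
    have h2 : ten (k + 1) A = 0 := by simpa using h1
    rw [h2]
    push_cast
    have : 0 ≤ Real.log (((k : ℝ) + 1) * H) := by
      apply Real.log_nonneg
      have : (0 : ℝ) ≤ k := Nat.cast_nonneg _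
      nlinarith
    have h3 : 0 ≤ lg ((k : ℝ) + 1) H Q := by
      unfold lg
      positivity
    positivity
  have hn1 : (1 : ℝ) ≤ (A.card : ℝ) := by exact_mod_cast Nat.one_le_iff_ne_zero.mpr hA0
  induction k with
  | zero =>
    have h1 := ten_le 0 A
    have h2 : ((ten (0 + 1) A : ℕ) : ℝ) ≤ (A.card : ℝ) := by
      have : ten (0 + 1) A ≤ A.card := by simpa using h1
      exact_mod_cast this
    refine h2.trans (le_of_eq ?_)
    norm_num
  | succ j ih =>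
    have hj0 : (0 : ℝ) ≤ j := Nat.cast_nonneg _
    have hθ0 : (0 : ℝ) ≤ (1 / 2 : ℝ) ^ j := by positivity
    have hθ1 : (1 / 2 : ℝ) ^ j ≤ 1 := pow_le_one₀ (by norm_num) (by norm_num)
    have hl1 : Real.log 2 ≤ Real.log (((j : ℝ) + 1) * H) :=
      Real.log_le_log (by norm_num) (by nlinarith)
    have hl2 : Real.log (((j : ℝ) + 1) * H) ≤ Real.log (((j : ℝ) + 2) * H) :=
      Real.log_le_log (by nlinarith) (by nlinarith)
    have hm1 : lg ((j : ℝ) + 1) H Q ≤ lg ((j : ℝ) + 2) H Q := by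
      unfold lg
      have : ((j : ℝ) + 1) * Real.log Q ≤ ((j : ℝ) + 2) * Real.log Q :=
        mul_le_mul_of_nonneg_right (by linarith) hlogQ
      linarith
    have hm0 : 0.69 ≤ lg ((j : ℝ) + 1) H Q := by
      unfold lg
      have : 0 ≤ ((j : ℝ) + 1) * Real.log Q := by positivity
      linarith
    have hs := step_real (50000 * lg ((j : ℝ) + 2) H Q) (A.card : ℝ)
      ((1 / 2 : ℝ) ^ j) (ten (j + 2) A : ℝ) (ten (j + 1) A : ℝ) j (by linarith) hn1 hθ0 hθ1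
      (12500 * lg ((j : ℝ) + 2) H Q) (by linarith) (by linarith)
      (Nat.cast_nonneg _)
      (by
        have := ten_le (j + 1) A
        have e : 2 * (j + 1) + 1 = 2 * j + 3 := by ring
        rw [e] at this
        exact_mod_cast this)
      (by
        refine ih.trans ?_
        apply mul_le_mul_of_nonneg_right _ (by positivity)
        apply Real.rpow_le_rpow (by linarith) (by linarith) (by linarith))
      (ten_rec H Q hH hQ A hA j)
    have e1 : (((j + 1 : ℕ) : ℝ) + 1) = (j : ℝ) + 2 := by push_cast; ring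
    have e2 : 2 - 2 * (1 / 2 : ℝ) ^ (j + 1) = 2 - (1 / 2 : ℝ) ^ j := by rw [pow_succ]; ring
    have e3 : 2 * (((j + 1 : ℕ) : ℝ)) + (1 / 2 : ℝ) ^ (j + 1)
        = 2 * (j : ℝ) + 2 + (1 / 2 : ℝ) ^ j / 2 := by rw [pow_succ]; push_cast; ring
    rw [e1, e2, e3]
    exact hs

/-- Mixed energy. -/
theorem mix_bd (H Q : ℕ) (hH : 2 ≤ H) (hQ : 1 ≤ Q) (A B : Finset ℚ)
    (hA : ∀ a ∈ A, ∃ x : ℚ, |x.num| ≤ (H : ℤ) ∧ x.den ≤ Q ∧ a = x ^ 2)
    (hB : ∀ b ∈ B, |b.num| ≤ (H : ℤ) ^ 2 ∧ b.den ≤ Q ^ 2) :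
    (col (A ×ˢ B) (fun z : ℚ × ℚ => z.1 + z.2) : ℝ) ≤
      110000 * Real.log ((H : ℝ) * Q) * ((A.card : ℝ) * (B.card : ℝ) ^ ((3 : ℝ) / 2)) +
      (110000 * Real.log ((H : ℝ) * Q)) ^ 2 * (B.card : ℝ) ^ 2 := by
  have hHr : (2 : ℝ) ≤ H := by exact_mod_cast hH
  have hA1 : ∀ a ∈ A, IsSquare a := by
    intro a ha
    obtain ⟨x, _, _, rfl⟩ := hA a ha
    exact ⟨x, by ring⟩
  have hQr : (1 : ℝ) ≤ Q := by exact_mod_cast hQ
  have hA2 : ∀ a ∈ A, hq ((H : ℝ) ^ 2) ((Q : ℝ) ^ 2) a := by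
    intro a ha
    obtain ⟨x, h1, h2, rfl⟩ := hA a ha
    exact hq_sq2 h1 h2
  have hB2 : ∀ b ∈ B, hq ((H : ℝ) ^ 2) ((Q : ℝ) ^ 2) b := by
    intro b hb
    obtain ⟨h1, h2⟩ := hB b hb
    constructor
    · have : ((|b.num| : ℤ) : ℝ) ≤ (((H : ℤ) ^ 2 : ℤ) : ℝ) := by exact_mod_cast h1
      push_cast at this ⊢
      exact this
    · have : ((b.den : ℕ) : ℝ) ≤ ((Q ^ 2 : ℕ) : ℝ) := by exact_mod_cast h2
      push_cast at this ⊢
      exact this
  have hH2 : (4 : ℝ) ≤ (H : ℝ) ^ 2 := by nlinarith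
  have hQ2 : (1 : ℝ) ≤ (Q : ℝ) ^ 2 := one_le_pow₀ hQr
  have hQ24 : (Q : ℝ) ^ 2 ≤ (Q : ℝ) ^ 4 := pow_le_pow_right₀ hQr (by norm_num)
  obtain ⟨L, hLd⟩ : ∃ L : ℝ, L = 2 * ((H : ℝ) ^ 2 * (Q : ℝ) ^ 4) := ⟨_, rfl⟩
  have hHQ2 : (H : ℝ) ^ 2 * (Q : ℝ) ^ 2 ≤ (H : ℝ) ^ 2 * (Q : ℝ) ^ 4 :=
    mul_le_mul_of_nonneg_left hQ24 (by positivity)
  have hHQ1 : (H : ℝ) ^ 2 ≤ (H : ℝ) ^ 2 * (Q : ℝ) ^ 2 := by nlinarith
  have hQQ1 : (Q : ℝ) ^ 4 ≤ (H : ℝ) ^ 2 * (Q : ℝ) ^ 4 := by nlinarith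
  have hL2 : (H : ℝ) ^ 2 ≤ L := by rw [hLd]; linarith
  have hL : 1 ≤ L := by linarith
  have hL4 : (Q : ℝ) ^ 2 * (Q : ℝ) ^ 2 ≤ L := by
    have e : (Q : ℝ) ^ 2 * (Q : ℝ) ^ 2 = (Q : ℝ) ^ 4 := by ring
    rw [hLd, e]; linarith
  have hL3 : (Q : ℝ) ^ 2 ≤ L := by rw [hLd]; linarith
  have hrec := recur L hL A hA1 (fun a ha => hq_mono (hA2 a ha) hL2 hL3)
    (A ×ˢ B) B (fun z : ℚ × ℚ => z.1 + z.2) (fun b => b)
    (by
      intro x hx
      rw [Finset.mem_product] at hx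
      refine hq_mono (hq_add (hA2 _ hx.1) (hB2 _ hx.2)) ?_ ?_
      · rw [hLd]; linarith
      · exact hL4)
    (fun x hx => hq_mono (hB2 x hx) hL2 hL3)
    (by
      unfold col
      refine Finset.card_le_card_of_injOn (fun z => (z.1, z.2.2)) ?_ ?_
      · intro z hz
        have hz' := Finset.mem_coe.mp hz
        rw [Finset.mem_filter, Finset.mem_product, Finset.mem_product, Finset.mem_product] at hz'
        obtain ⟨⟨h1, h2⟩, h3⟩ := hz'
        have h3' : z.1.1 + z.1.2 = z.2.1 + z.2.2 := h3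
        refine Finset.mem_coe.mpr (Finset.mem_filter.mpr ⟨Finset.mem_product.mpr
          ⟨Finset.mem_product.mpr h1, h2.2⟩, ?_⟩)
        have e : z.1.1 + z.1.2 - z.2.2 = z.2.1 := by rw [h3']; ring
        show z.1.1 + z.1.2 - z.2.2 ∈ A
        rw [e]; exact h2.1
      · intro z hz w hw h
        have hz' := Finset.mem_coe.mp hz
        have hw' := Finset.mem_coe.mp hw
        rw [Finset.mem_filter] at hz' hw'
        have h3 : z.1.1 + z.1.2 = z.2.1 + z.2.2 := hz'.2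
        have h4 : w.1.1 + w.1.2 = w.2.1 + w.2.2 := hw'.2
        simp only [Prod.mk.injEq] at h
        obtain ⟨h1, h2⟩ := h
        have e5 : z.2.1 = w.2.1 := by
          rw [h1] at h3
          rw [h3, h2] at h4
          linarith
        exact Prod.ext h1 (Prod.ext e5 h2))
  have hcolB : (col B (fun b : ℚ => b) : ℝ) ≤ (B.card : ℝ) := by
    have : col B (fun b : ℚ => b) ≤ B.card := by
      unfold col
      refine Finset.card_le_card_of_injOn (fun z => z.1) ?_ ?_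
      · intro z hz
        have hz' := Finset.mem_coe.mp hz
        rw [Finset.mem_filter, Finset.mem_product] at hz'
        exact Finset.mem_coe.mpr hz'.1.1
      · intro z hz w hw h
        have hz' := Finset.mem_coe.mp hz
        have hw' := Finset.mem_coe.mp hw
        rw [Finset.mem_filter] at hz' hw'
        have h3 : z.1 = z.2 := hz'.2
        have h4 : w.1 = w.2 := hw'.2
        have h5 : z.1 = w.1 := h
        exact Prod.ext h5 (by rw [← h3, ← h4]; exact h5)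
    exact_mod_cast this
  have hHQ0 : (2 : ℝ) ≤ (H : ℝ) * Q := by nlinarith
  have hlH0 : 0 ≤ Real.log ((H : ℝ) * Q) := Real.log_nonneg (by linarith)
  have hlogQ : 0 ≤ Real.log Q := Real.log_nonneg hQr
  have hlog2 : Real.log 2 ≤ Real.log H := Real.log_le_log (by norm_num) hHr
  have hlogH : 0 ≤ Real.log H := Real.log_nonneg (by linarith)
  have hlM : Real.log (2 * L ^ 2) ≤ 11 * Real.log ((H : ℝ) * Q) := by
    have e1 : 2 * L ^ 2 = 2 ^ 3 * ((H : ℝ) ^ 4 * (Q : ℝ) ^ 8) := by rw [hLd]; ring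
    have hH0 : (H : ℝ) ≠ 0 := by linarith
    have hQ0 : (Q : ℝ) ≠ 0 := by linarith
    rw [e1, Real.log_mul (by norm_num) (by positivity), Real.log_mul (by positivity) (by positivity),
      Real.log_pow, Real.log_pow, Real.log_pow, Real.log_mul hH0 hQ0]
    push_cast
    linarith
  have hL22 : (2 : ℝ) ≤ 2 * L ^ 2 := by nlinarith
  have hlM0 : 0 ≤ Real.log (2 * L ^ 2) := Real.log_nonneg (by linarith)
  have hw : (2500 * Real.log (2 * L ^ 2)) ^ 2 ≤ (27500 * Real.log ((H : ℝ) * Q)) ^ 2 :=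
    pow_le_pow_left₀ (by linarith) (by linarith) 2
  obtain ⟨n, hn⟩ : ∃ n : ℝ, n = (A.card : ℝ) := ⟨_, rfl⟩
  obtain ⟨m, hm⟩ : ∃ m : ℝ, m = (B.card : ℝ) := ⟨_, rfl⟩
  obtain ⟨l, hl⟩ : ∃ l : ℝ, l = Real.log ((H : ℝ) * Q) := ⟨_, rfl⟩
  obtain ⟨E, hE⟩ : ∃ E : ℝ, E = (col (A ×ˢ B) (fun z : ℚ × ℚ => z.1 + z.2) : ℝ) := ⟨_, rfl⟩
  have hn0 : 0 ≤ n := by rw [hn]; exact Nat.cast_nonneg _
  have hm0 : 0 ≤ m := by rw [hm]; exact Nat.cast_nonneg _
  have hcard : ((A ×ˢ B).card : ℝ) = n * m := by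
    rw [Finset.card_product, hn, hm]; push_cast; ring
  rw [hcard, ← hE, ← hm] at hrec
  rw [← hm] at hcolB
  rw [← hE, ← hn, ← hm, ← hl]
  rw [← hl] at hw hlH0
  have hmp : (m ^ ((3 : ℝ) / 2)) ^ 2 = m ^ 3 := by
    rw [← Real.rpow_natCast, ← Real.rpow_mul hm0]
    have : (3 : ℝ) / 2 * ((2 : ℕ) : ℝ) = ((3 : ℕ) : ℝ) := by push_cast; norm_num
    rw [this, Real.rpow_natCast]
  have hmp0 : 0 ≤ m ^ ((3 : ℝ) / 2) := Real.rpow_nonneg hm0 _
  rcases hrec with h | h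
  · have h1 : E ≤ 110000 * l * (n * m ^ ((3 : ℝ) / 2)) := by
      apply le_of_sq_le_sq _ (by positivity)
      calc E ^ 2 ≤ 8 * (2500 * Real.log (2 * L ^ 2)) ^ 2 *
            ((n * m) ^ 2 * (col B (fun b : ℚ => b) : ℝ)) := h
        _ ≤ 8 * (27500 * l) ^ 2 * ((n * m) ^ 2 * m) := by
            apply mul_le_mul
            · linarith
            · exact mul_le_mul_of_nonneg_left hcolB (sq_nonneg _)
            · positivity
            · positivity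
        _ ≤ (110000 * l * (n * m ^ ((3 : ℝ) / 2))) ^ 2 := by
            have e : (110000 * l * (n * m ^ ((3 : ℝ) / 2))) ^ 2
                = 12100000000 * (l ^ 2 * (n ^ 2 * m ^ 3)) := by
              rw [mul_pow, mul_pow, mul_pow, hmp]; ring
            rw [e]
            have e2 : 8 * (27500 * l) ^ 2 * ((n * m) ^ 2 * m)
                = 6050000000 * (l ^ 2 * (n ^ 2 * m ^ 3)) := by ring
            rw [e2]
            have : 0 ≤ l ^ 2 * (n ^ 2 * m ^ 3) := by positivity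
            linarith
    have : 0 ≤ (110000 * l) ^ 2 * m ^ 2 := by positivity
    linarith
  · have h1 : E ≤ (110000 * l) ^ 2 * m ^ 2 := by
      refine h.trans ?_
      apply mul_le_mul_of_nonneg_right _ (sq_nonneg m)
      nlinarith
    have : 0 ≤ 110000 * l * (n * m ^ ((3 : ℝ) / 2)) := by positivity
    linarith

end H45SR
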