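import Pool.Agent.H45.SR.E3
import Pool.Agent.H45.SR.Lg
import Pool.Agent.H45.SR.Tup

set_option autoImplicit false

namespace H45SR

open Finset H45SQ

lemma lg_mono (H Q : ℕ) (hH : 2 ≤ H) (hQ : 1 ≤ Q) (k k' : ℝ) (hk : 1 ≤ k) (hkk : k ≤ k') :
    lg k H Q ≤ lg k' H Q := by
  have hHr : (2 : ℝ) ≤ H := by exact_mod_cast hH
  have hQr : (1 : ℝ) ≤ Q := by exact_mod_cast hQ
  have h1 : Real.log (k * H) ≤ Real.log (k' * H) := by
    apply Real.log_le_log (by positivity)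
    exact mul_le_mul_of_nonneg_right hkk (by linarith)
  have h2 : 0 ≤ Real.log (Q : ℝ) := Real.log_nonneg hQr
  have h3 : k * Real.log Q ≤ k' * Real.log Q := mul_le_mul_of_nonneg_right hkk h2
  unfold lg
  linarith

lemma lg_two (H Q : ℕ) (hH : 2 ≤ H) (hQ : 1 ≤ Q) :
    (0.69 : ℝ) ≤ Real.log (2 * ((H : ℝ) * Q)) ∧ Real.log (2 * ((H : ℝ) * Q)) ≤ lg 2 H Q := by
  have hHr : (2 : ℝ) ≤ H := by exact_mod_cast hH
  have hQr : (1 : ℝ) ≤ Q := by exact_mod_cast hQ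
  have hl := Real.log_two_gt_d9
  have h2 : 0 ≤ Real.log (Q : ℝ) := Real.log_nonneg hQr
  constructor
  · have h3 : Real.log 2 ≤ Real.log (2 * ((H : ℝ) * Q)) :=
      Real.log_le_log (by norm_num) (by nlinarith)
    linarith
  · unfold lg
    have e : (2 : ℝ) * ((H : ℝ) * Q) = (2 * (H : ℝ)) * Q := by ring
    rw [e, Real.log_mul (by positivity) (by positivity)]
    linarith

lemma ten_two (A : Finset ℚ) : ten 2 A ≤ en A := by
  unfold ten col en
  refine Finset.card_le_card_of_injOn (fun z => (z.1 0, z.1 1, z.2 0, z.2 1)) ?_ ?_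
  · intro z hz
    have hz' := Finset.mem_coe.mp hz
    rw [Finset.mem_filter, Finset.mem_product, mem_tup, mem_tup] at hz'
    obtain ⟨⟨h1, h2⟩, h3⟩ := hz'
    have h3' : ∑ i, z.1 i = ∑ i, z.2 i := h3
    rw [Fin.sum_univ_two, Fin.sum_univ_two] at h3'
    refine Finset.mem_coe.mpr (Finset.mem_filter.mpr ⟨?_, h3'⟩)
    exact Finset.mem_product.mpr ⟨h1 0, Finset.mem_product.mpr ⟨h1 1,
      Finset.mem_product.mpr ⟨h2 0, h2 1⟩⟩⟩
  · intro z _ w _ h
    simp only [Prod.mk.injEq] at h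
    obtain ⟨h1, h2, h3, h4⟩ := h
    refine Prod.ext ?_ ?_
    · funext i
      fin_cases i
      · exact h1
      · exact h2
    · funext i
      fin_cases i
      · exact h3
      · exact h4

/-- Energies of two and more summands. -/
theorem ten_sharp (H Q : ℕ) (hH : 2 ≤ H) (hQ : 1 ≤ Q) (A : Finset ℚ)
    (hA : ∀ a ∈ A, ∃ x : ℚ, |x.num| ≤ (H : ℤ) ∧ x.den ≤ Q ∧ a = x ^ 2) (hA0 : A.card ≠ 0)
    (k : ℕ) :
    (ten (k + 2) A : ℝ) ≤ (50000 * lg ((k : ℝ) + 2) H Q) ^ ((25 : ℝ) / 7) *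
      (A.card : ℝ) ^ (2 * (k : ℝ) + 2 + 3 / 7 * (1 / 2 : ℝ) ^ k) := by
  have hn1 : (1 : ℝ) ≤ (A.card : ℝ) := by exact_mod_cast Nat.one_le_iff_ne_zero.mpr hA0
  obtain ⟨hl1, hl2⟩ := lg_two H Q hH hQ
  induction k with
  | zero =>
    have h1 := int17 H Q hH hQ A hA hA0
    have h2 := LL_le H Q hH hQ A hA
    have h3 := vv_le H Q hH hQ
    have hv0 : 0 ≤ vv H Q := by have := vv_one H Q hH hQ; linarith
    obtain ⟨l, hl⟩ : ∃ l : ℝ, l = Real.log (2 * ((H : ℝ) * Q)) := ⟨_, rfl⟩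
    rw [← hl] at hl1 hl2 h2 h3
    have hl0' : 0 ≤ l := by linarith
    obtain ⟨n, hn⟩ : ∃ n : ℝ, n = (A.card : ℝ) := ⟨_, rfl⟩
    rw [← hn] at hn1 h1
    have hn0 : 0 < n := by linarith
    have h4 : (en A : ℝ) ^ 7 ≤ (50000 * l) ^ 25 * n ^ 17 := by
      calc (en A : ℝ) ^ 7 ≤ 2 ^ 28 * (LL A : ℝ) ^ 15 * vv H Q ^ 5 * n ^ 17 := h1
        _ ≤ 2 ^ 28 * (3 * l) ^ 15 * (9000000000 * l ^ 2) ^ 5 * n ^ 17 := by gcongr
        _ = (2 ^ 28 * 3 ^ 15 * 9000000000 ^ 5) * (l ^ 25 * n ^ 17) := by ring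
        _ ≤ 50000 ^ 25 * (l ^ 25 * n ^ 17) := by
            apply mul_le_mul_of_nonneg_right _ (by positivity)
            norm_num
        _ = (50000 * l) ^ 25 * n ^ 17 := by ring
    have e1 : (((0 : ℕ) : ℝ) + 2) = 2 := by push_cast; ring
    have e2 : 2 * (((0 : ℕ) : ℝ)) + 2 + 3 / 7 * (1 / 2 : ℝ) ^ 0 = (17 : ℝ) / 7 := by norm_num
    rw [e2, e1, ← hn]
    have h5 : ((ten (0 + 2) A : ℕ) : ℝ) ≤ (en A : ℝ) := by exact_mod_cast ten_two A
    have h6 : (en A : ℝ) ≤ (50000 * l) ^ ((25 : ℝ) / 7) * n ^ ((17 : ℝ) / 7) := by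
      refine le_of_pow_le_pow_left₀ (n := 7) (by norm_num) (by positivity) ?_
      have b1 : ((50000 * l) ^ ((25 : ℝ) / 7)) ^ 7 = (50000 * l) ^ 25 := by
        rw [← Real.rpow_natCast ((50000 * l) ^ ((25 : ℝ) / 7)) 7, ← Real.rpow_mul (by positivity),
          ← Real.rpow_natCast (50000 * l) 25]
        norm_num
      have b2 : (n ^ ((17 : ℝ) / 7)) ^ 7 = n ^ 17 := by
        rw [← Real.rpow_natCast (n ^ ((17 : ℝ) / 7)) 7, ← Real.rpow_mul hn0.le,
          ← Real.rpow_natCast n 17]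
        norm_num
      rw [mul_pow ((50000 * l) ^ ((25 : ℝ) / 7)) (n ^ ((17 : ℝ) / 7)) 7, b1, b2]
      exact h4
    refine (h5.trans h6).trans ?_
    apply mul_le_mul_of_nonneg_right _ (by positivity)
    exact Real.rpow_le_rpow (by positivity) (by linarith) (by norm_num)
  | succ j ih =>
    have hj0 : (0 : ℝ) ≤ j := Nat.cast_nonneg _
    obtain ⟨θ, hθ⟩ : ∃ θ : ℝ, θ = 3 / 7 * (1 / 2 : ℝ) ^ j := ⟨_, rfl⟩
    have hθ0 : 0 ≤ θ := by rw [hθ]; positivity
    have hm1 : lg 2 H Q ≤ lg ((j : ℝ) + 2) H Q :=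
      lg_mono H Q hH hQ 2 _ (by norm_num) (by linarith)
    have hm2 : lg ((j : ℝ) + 2) H Q ≤ lg ((j : ℝ) + 3) H Q :=
      lg_mono H Q hH hQ _ _ (by linarith) (by linarith)
    obtain ⟨K, hK⟩ : ∃ K : ℝ, K = 50000 * lg ((j : ℝ) + 3) H Q := ⟨_, rfl⟩
    have hK1 : 1 ≤ K := by rw [hK]; linarith
    have hK0 : 0 < K := by linarith
    have hr := ten_rec H Q hH hQ A hA (j + 1)
    obtain ⟨n, hn⟩ : ∃ n : ℝ, n = (A.card : ℝ) := ⟨_, rfl⟩
    have e3 : (((j + 1 : ℕ) : ℝ) + 2) = (j : ℝ) + 3 := by push_cast; ring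
    have e4 : (12500 * lg ((j : ℝ) + 3) H Q) = K / 4 := by rw [hK]; ring
    have e5 : 2 * (((j + 1 : ℕ) : ℝ)) + 2 + 3 / 7 * (1 / 2 : ℝ) ^ (j + 1)
        = 2 * (j : ℝ) + 4 + θ / 2 := by rw [hθ, pow_succ]; push_cast; ring
    rw [e3, e4, ← hn] at hr
    rw [e3, e5, ← hK, ← hn]
    rw [← hn, ← hθ] at ih
    rw [← hn] at hn1
    have hn0 : 0 < n := by linarith
    have ih' : (ten (j + 2) A : ℝ) ≤ K ^ ((25 : ℝ) / 7) * n ^ (2 * (j : ℝ) + 2 + θ) := by
      refine ih.trans ?_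
      apply mul_le_mul_of_nonneg_right _ (by positivity)
      apply Real.rpow_le_rpow (by linarith) (by rw [hK]; linarith) (by norm_num)
    have hR0 : 0 ≤ K ^ ((25 : ℝ) / 7) * n ^ (2 * (j : ℝ) + 4 + θ / 2) := by positivity
    rcases hr with h | h
    · apply le_of_sq_le_sq _ hR0
      calc (ten (j + 1 + 2) A : ℝ) ^ 2 ≤ 8 * (K / 4) ^ 2 * ((n ^ (j + 1 + 2)) ^ 2 *
            (ten (j + 1 + 1) A : ℝ)) := h
        _ ≤ 8 * (K / 4) ^ 2 * ((n ^ (j + 1 + 2)) ^ 2 *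
            (K ^ ((25 : ℝ) / 7) * n ^ (2 * (j : ℝ) + 2 + θ))) := by gcongr
        _ ≤ K ^ 2 * ((n ^ (j + 1 + 2)) ^ 2 *
            (K ^ ((25 : ℝ) / 7) * n ^ (2 * (j : ℝ) + 2 + θ))) := by
            apply mul_le_mul_of_nonneg_right _ (by positivity)
            nlinarith
        _ = K ^ ((39 : ℝ) / 7) * n ^ (4 * (j : ℝ) + 8 + θ) := by
            have a1 : K ^ ((39 : ℝ) / 7) = K ^ 2 * K ^ ((25 : ℝ) / 7) := by
              rw [← Real.rpow_natCast K 2, ← Real.rpow_add hK0]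
              norm_num
            have a2 : n ^ (4 * (j : ℝ) + 8 + θ) =
                (n ^ (j + 1 + 2)) ^ 2 * n ^ (2 * (j : ℝ) + 2 + θ) := by
              rw [← pow_mul, ← Real.rpow_natCast n, ← Real.rpow_add hn0]
              congr 1
              push_cast
              ring
            rw [a1, a2]; ring
        _ ≤ K ^ ((50 : ℝ) / 7) * n ^ (4 * (j : ℝ) + 8 + θ) := by
            apply mul_le_mul_of_nonneg_right _ (by positivity)
            exact Real.rpow_le_rpow_of_exponent_le hK1 (by norm_num)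
        _ = (K ^ ((25 : ℝ) / 7) * n ^ (2 * (j : ℝ) + 4 + θ / 2)) ^ 2 := by
            rw [mul_pow, ← Real.rpow_natCast (K ^ ((25 : ℝ) / 7)),
              ← Real.rpow_natCast (n ^ (2 * (j : ℝ) + 4 + θ / 2)), ← Real.rpow_mul hK0.le,
              ← Real.rpow_mul hn0.le]
            congr 1
            · norm_num
            · congr 1
              push_cast
              ring
    · calc (ten (j + 1 + 2) A : ℝ) ≤ 12 * (K / 4) ^ 2 * (n ^ (j + 1 + 1)) ^ 2 := h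
        _ ≤ K ^ 2 * (n ^ (j + 1 + 1)) ^ 2 := by
            apply mul_le_mul_of_nonneg_right _ (by positivity)
            nlinarith
        _ = K ^ (2 : ℝ) * n ^ (2 * (j : ℝ) + 4) := by
            congr 1
            · norm_num
            · rw [← pow_mul, ← Real.rpow_natCast n]
              congr 1
              push_cast
              ring
        _ ≤ K ^ ((25 : ℝ) / 7) * n ^ (2 * (j : ℝ) + 4 + θ / 2) := by
            apply mul_le_mul
            · exact Real.rpow_le_rpow_of_exponent_le hK1 (by norm_num)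
            · exact Real.rpow_le_rpow_of_exponent_le hn1 (by linarith)
            · positivity
            · positivity

end H45SR
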